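import Pool.Agent.Lib.FBC.X2.D

/-!
The induction on the size of the fibre.
-/

namespace Pool.Agent.Lib.FBC.X2

open Subgroup

variable {G : Type} [Group G] {d : Dg G} {k : ℕ} {H : Subgroup G} {e : Dg H}

/-- elements of the fibre with periodic conjugacy class -/
def Pc (d : Dg G) (x : d.ker) : Prop := ∃ g : G, dg d g ≠ 0 ∧ g * x = x * g

/-- intrinsic form of the surface case -/
def Surf2 (d : Dg G) : Prop :=
  ∃ (m b : ℕ) (β : FreeGroupBasis (Fin m) d.ker) (c : Fin b → List (Fin m × Bool)), SurfW c ∧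
    (∀ j, Pc d (spell β (c j)) ∧ spell β (c j) ≠ 1) ∧
    (∀ x, x ≠ 1 → Pc d x → ∃ (j : Fin b) (w : d.ker) (n : ℤ), x = w * spell β (c j) ^ n * w⁻¹) ∧
    ∀ (i j : Fin b) (w : d.ker) (n : ℤ), spell β (c j) = w * spell β (c i) ^ n * w⁻¹ →
      n = 1 ∨ n = -1

lemma Surf2.surf (h : Surf2 d) : Surf d := by
  obtain ⟨m, b, β, c, h1, h2, h3, h4⟩ := h
  refine ⟨m, b, β, c, fun j => (spell β (c j)).1, h1, fun _ => rfl, fun g j => ?_,
    fun x hx h5 g h6 h7 => ?_⟩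
  · have key : ∀ (g : G) j, ∃ (i : Fin b) (w : d.ker) (n : ℤ),
        MulAut.conjNormal g (spell β (c j)) = w * spell β (c i) ^ n * w⁻¹ := fun g j => by
      obtain ⟨⟨z, z1, z2⟩, z3⟩ := h2 j
      refine h3 _ ((MulEquiv.map_ne_one_iff _).2 z3) ⟨g * z * g⁻¹, ?_, ?_⟩
      · rw [dg_mul, dg_mul, dg_inv]; omega
      · rw [MulAut.conjNormal_apply, conj_mul, conj_mul, z2]
    obtain ⟨i, w, n, h5⟩ := key g j
    obtain ⟨l, w', n', h6⟩ := key g⁻¹ i
    have h7 := h4 l j (MulAut.conjNormal g⁻¹ w * w') (n' * n) (by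
      have := congrArg (MulAut.conjNormal g⁻¹) h5
      rw [← MulAut.mul_apply, ← map_mul, inv_mul_cancel, map_one, MulAut.one_apply, map_mul,
        map_mul, map_zpow, h6, conj_zpow, ← zpow_mul, map_inv (MulAut.conjNormal g⁻¹)] at this
      rw [this]
      group)
    have h8 : n = 1 ∨ n = -1 := by
      rcases h7 with h7 | h7
      · exact Int.eq_one_or_neg_one_of_mul_eq_one (by rwa [mul_comm] at h7)
      · exact Int.eq_one_or_neg_one_of_mul_eq_neg_one (by rwa [mul_comm] at h7)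
    have h9 := congrArg Subtype.val h5
    refine ⟨i, w, w.2, h8.imp ?_ ?_⟩ <;> rintro rfl <;> simpa using h9
  · obtain ⟨j, w, n, h8⟩ := h3 ⟨x, hx⟩ (fun e => h5 (congrArg Subtype.val e)) ⟨g, h6, h7⟩
    exact ⟨j, w, w.2, n, congrArg Subtype.val h8⟩

lemma pow_mem_ker (h : Pow d k H e) (x : H) : x ∈ e.ker ↔ (x : G) ∈ d.ker := by
  rw [mem_ker_iff, mem_ker_iff, h.deg, mul_eq_zero, or_iff_right (by exact_mod_cast h.pos.ne')]

lemma pow_le (h : Pow d k H e) : d.ker ≤ H := fun x hx => by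
  rw [h.mem, (mem_ker_iff _ _).1 hx]; exact dvd_zero _

lemma pow_pow (h : Pow d k H e) (g : G) : g ^ k ∈ H := by
  rw [h.mem, dg_pow]; exact dvd_mul_right _ _

lemma pow_dg (h : Pow d k H e) (g : G) : dg e ⟨_, pow_pow h g⟩ = dg d g :=
  mul_left_cancel₀ (by exact_mod_cast h.pos.ne' : (k : ℤ) ≠ 0) (by rw [← h.deg, dg_pow])

/-- the fibre does not change -/
def ke (h : Pow d k H e) : e.ker ≃* d.ker where
  toFun x := ⟨x.1.1, (pow_mem_ker h _).1 x.2⟩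
  invFun x := ⟨⟨x.1, pow_le h x.2⟩, (pow_mem_ker h _).2 x.2⟩
  left_inv _ := rfl
  right_inv _ := rfl
  map_mul' _ _ := rfl

lemma pow_fc (h : Pow d k H e) (hd : FC d) : FC e where
  surj n := by
    obtain ⟨g, hg⟩ := hd.surj n
    exact ⟨_, (pow_dg h g).trans (congrArg Multiplicative.toAdd hg)⟩
  free := by
    have := hd.free
    exact IsFreeGroup.ofMulEquiv (ke h).symm
  fg := by
    have := (Group.fg_iff_subgroup_fg _).2 hd.fg
    exact (Group.fg_iff_subgroup_fg _).1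
      (Group.fg_of_surjective (f := (ke h).symm.toMonoidHom) (ke h).symm.surjective)
  lerf := hd.lerf.of_injective H.subtype Subtype.val_injective

lemma pow_mu (h : Pow d k H e) : mu e = mu d :=
  Nat.card_congr ⟨fun χ => χ.comp (ke h).symm.toMonoidHom, fun χ => χ.comp (ke h).toMonoidHom,
    fun _ => rfl, fun _ => rfl⟩

lemma pow_per (h : Pow d k H e) (hp : Per e) : Per d := by
  obtain ⟨z, h1, h2⟩ := hp
  refine ⟨z, ?_, fun x hx => congrArg Subtype.val (h2 _ ((ke h).symm ⟨x, hx⟩).2)⟩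
  rw [h.deg]
  exact mul_ne_zero (by exact_mod_cast h.pos.ne') h1

lemma pow_pc (h : Pow d k H e) (x : e.ker) : Pc e x ↔ Pc d (ke h x) := by
  refine ⟨fun ⟨z, h1, h2⟩ => ⟨z, ?_, congrArg Subtype.val h2⟩, fun ⟨z, h1, h2⟩ =>
    ⟨⟨_, pow_pow h z⟩, by rwa [pow_dg h], Subtype.ext (Commute.pow_left h2 k)⟩⟩
  rw [h.deg]
  exact mul_ne_zero (by exact_mod_cast h.pos.ne') h1

lemma pow_surf (h : Pow d k H e) (hs : Surf2 e) : Surf2 d := by
  obtain ⟨m, b, β, c, h1, h2, h3, h4⟩ := hs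
  have e1 : ∀ w, spell (β.map (ke h)) w = ke h (spell β w) := fun _ => rfl
  refine ⟨m, b, β.map (ke h), c, h1, fun j => ⟨(pow_pc h _).1 (h2 j).1, ?_⟩, fun x h5 h6 => ?_,
    fun i j w n h5 => h4 i j ((ke h).symm w) n ((ke h).injective ?_)⟩
  · rw [e1]; exact (MulEquiv.map_ne_one_iff _).2 (h2 j).2
  · obtain ⟨x, rfl⟩ := (ke h).surjective x
    obtain ⟨j, w, n, rfl⟩ := h3 x ((MulEquiv.map_ne_one_iff _).1 h5) ((pow_pc h _).2 h6)
    exact ⟨j, ke h w, n, by rw [e1, map_mul, map_mul, map_zpow, map_inv]⟩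
  · rw [← e1, h5, e1, map_mul, map_mul, map_zpow, map_inv, MulEquiv.apply_symm_apply]

lemma pow_vht (h : Pow d k H e) (hv : ∀ t, 0 < dg e t → VHT e ∅ t) (t : G) (ht : 0 < dg d t) :
    VHT d ∅ t := by
  obtain ⟨L, hL, η, a, N, x, y, h1, h2, h3, h4, h5, -⟩ :=
    hv ⟨_, pow_pow h t⟩ (by rwa [pow_dg h])
  obtain ⟨η', h6⟩ := exists_map H.subtype Subtype.val_injective L η
  obtain ⟨M, -, m1, m2⟩ := exists_deg d (by exact_mod_cast h.pos.ne' : (k : ℤ) ≠ 0)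
  refine ⟨L.map H.subtype, finiteIndex_map _ Subtype.val_injective
    (finiteIndex_of_le (H := M) fun g hg => ⟨⟨g, (h.mem g).2 ((m2 g).1 hg)⟩, rfl⟩) L hL, η', a,
    k * N, ⟨_, mem_map_of_mem _ x.2⟩, ⟨_, mem_map_of_mem _ y.2⟩, (pow_mem_ker h a).1 h1,
    Nat.mul_pos h.pos h2, ?_, ?_, by rwa [h6, h6], fun _ h => h.elim⟩
  · simp [h3, pow_mul]
  · simp [h4, pow_mul]

theorem stMAIN (hTT : St_TT) (hNF : St_NF) (hT7 : St_T7) (hRIB : St_RIB) (hVHT : St_VHT) :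
    St_MAIN := by
  have key : ∀ (n : ℕ) (G : Type) [Group G] (d : Dg G), FC d → mu d = n →
      Per d ∨ (Surf d ∧ ∀ t : G, 0 < dg d t → VHT d ∅ t) := fun n => by
    induction n using Nat.strong_induction_on with
    | _ n ih =>
    intro G _ d hd hn
    by_cases h0 : d.ker = ⊥
    · obtain ⟨z, hz⟩ := hd.surj (.ofAdd 1)
      exact Or.inl ⟨z, by simp [dg, hz], fun x hx => by simp [mem_bot.1 (h0 ▸ hx)]⟩
    obtain ⟨k, H, e, h1, h2 | ⟨X, h2, h3, h4⟩⟩ := hTT G d hd h0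
    · exact Or.inl (pow_per h1 (caseD (pow_fc h1 hd) h2 fun G' _ d' h3 h4 =>
        (ih _ (by rwa [pow_mu h1, hn] at h4) G' d' h3 rfl).imp_right And.right))
    obtain ⟨k', H', e', h5, X', h6, h7, h8⟩ := hNF H e e⁻¹ (pow_fc h1 hd) X h2 h3 h4
    have hf := pow_fc h5 (pow_fc h1 hd)
    obtain ⟨T, R, r1, r2, r3, r4⟩ := hT7 H' e' e'⁻¹ hf X' h6 h7 h8
    obtain ⟨m, b, β, c, s1, s2, s3, s4⟩ := hRIB _ hf.free T R r1 r2 r3
    refine Or.inr ⟨(pow_surf h1 (pow_surf h5 ⟨m, b, β, c, s1,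
      fun j => ⟨(r4 _).1 (s2 j).1, (s2 j).2⟩, fun x h h' => s3 x h ((r4 x).2 h'), s4⟩)).surf,
      pow_vht h1 (pow_vht h5 fun t ht => ?_)⟩
    obtain ⟨L, hL, η, a, N, x, y, v1, v2, v3, v4, v5, -⟩ := hVHT H' e' hf X'.P X'.s h6.toTT t ht
    exact ⟨L, hL, η, a, N, x, y, v1, v2, v3, v4, v5, fun _ h => h.elim⟩
  exact fun G _ d hd => key _ G d hd rfl

end Pool.Agent.Lib.FBC.X2
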