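import Pool.Agent.Lib.FBC.Defs

/-!
Separability, finite generation and tree lemmas used for spirality and for invariant splittings.
-/

namespace Pool.Agent.Lib.FBC.X2

open Pool.Agent.Lib.MP_288210_al (LERF)
open Subgroup

variable {G : Type} [Group G]

lemma dg_mul (d : Dg G) (x y : G) : dg d (x * y) = dg d x + dg d y := by
  simp [dg]

lemma dg_inv (d : Dg G) (x : G) : dg d x⁻¹ = - dg d x := by
  simp [dg]

lemma dg_zpow (d : Dg G) (x : G) (n : ℤ) : dg d (x ^ n) = n * dg d x := by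
  simp [dg]

lemma dg_pow (d : Dg G) (x : G) (n : ℕ) : dg d (x ^ n) = n * dg d x := by
  simp [dg]

lemma dg_one (d : Dg G) : dg d 1 = 0 := by
  simp [dg]

lemma mem_ker_iff (d : Dg G) (x : G) : x ∈ d.ker ↔ dg d x = 0 := by
  rw [MonoidHom.mem_ker]; exact Iff.rfl

lemma eq_one_iff (d : Dg G) (x : G) : d x = 1 ↔ dg d x = 0 := Iff.rfl

lemma fg_map {A : Type} [Group A] (f : A →* G) {U : Subgroup A} (hU : U.FG) : (U.map f).FG := by
  obtain ⟨S, hS, hS'⟩ := (Subgroup.fg_iff U).1 hU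
  exact (Subgroup.fg_iff _).2 ⟨f '' S, by rw [← MonoidHom.map_closure, hS], hS'.image f⟩

lemma fg_zpowers (s : G) : (zpowers s).FG :=
  (Subgroup.fg_iff _).2 ⟨{s}, (zpowers_eq_closure s).symm, Set.finite_singleton s⟩

/-- A finite set is separated from a finitely generated subgroup. -/
lemma sep_finite (h : LERF G) {U : Subgroup G} (hU : U.FG) {B : Set G} (hB : B.Finite)
    (hd : ∀ x ∈ B, x ∉ U) : ∃ J : Subgroup G, J.FiniteIndex ∧ U ≤ J ∧ ∀ x ∈ B, x ∉ J := by
  have h1 : ∀ x : B, ∃ J : Subgroup G, J.FiniteIndex ∧ U ≤ J ∧ (x : G) ∉ J := fun x => by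
    by_contra e
    refine hd x x.2 ?_
    rw [h U hU, mem_sInf]
    rintro J ⟨h1, h2⟩
    by_contra h3
    exact e ⟨J, h1, h2, h3⟩
  choose J h1 h2 h3 using h1
  have := hB.to_subtype
  exact ⟨⨅ x, J x, finiteIndex_iInf h1, le_iInf h2, fun x hx e => h3 ⟨x, hx⟩ (mem_iInf.1 e _)⟩

lemma fg_of_relIndex {L S : Subgroup G} (hle : L ≤ S) (hS : S.FG) (hi : L.relIndex S ≠ 0) :
    L.FG := by
  have : Group.FG S := (Group.fg_iff_subgroup_fg S).2 hS
  have : (L.subgroupOf S).FiniteIndex := ⟨hi⟩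
  have h1 : (L.subgroupOf S).FG := (Group.fg_iff_subgroup_fg _).1 inferInstance
  have h2 := fg_map S.subtype h1
  rwa [subgroupOf_map_subtype, inf_eq_left.2 hle] at h2

lemma fg_inf {S : Subgroup G} (hS : S.FG) (N : Subgroup G) [N.FiniteIndex] : (N ⊓ S).FG := by
  refine fg_of_relIndex inf_le_right hS ?_
  rw [inf_relIndex_right]
  exact FiniteIndex.index_ne_zero (H := N.subgroupOf S)

/-- A subgroup whose degree zero part is finitely generated is finitely generated. -/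
lemma fg_of_ker (d : Dg G) {S : Subgroup G} (h : (d.ker ⊓ S).FG) : S.FG := by
  obtain ⟨a, ha⟩ := Int.subgroup_cyclic (Subgroup.toAddSubgroup' (S.map d))
  have h1 : ∀ n : ℤ, (∃ s ∈ S, dg d s = n) ↔ a ∣ n := fun n => by
    rw [← Int.mem_zmultiples_iff, AddSubgroup.zmultiples_eq_closure, ← ha]
    exact Iff.rfl
  obtain ⟨s, hs, e⟩ := (h1 a).2 dvd_rfl
  have : S = (d.ker ⊓ S) ⊔ zpowers s := by
    refine le_antisymm (fun x hx => ?_) (sup_le inf_le_right (zpowers_le.2 hs))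
    obtain ⟨c, hc⟩ := (h1 _).1 ⟨x, hx, rfl⟩
    have h2 : x * (s ^ c)⁻¹ ∈ d.ker ⊓ S := mem_inf.2 ⟨(mem_ker_iff _ _).2 (by
      rw [dg_mul, dg_inv, dg_zpow, hc, e]; ring), mul_mem hx (inv_mem (zpow_mem hs c))⟩
    simpa using mul_mem (mem_sup_left h2) (mem_sup_right (zpow_mem (mem_zpowers s) c))
  rw [this]
  exact h.sup (fg_zpowers s)

/-- A finite index subgroup of a finitely generated subgroup is cut out by a finite index subgroup
of the whole group. -/
lemma sep_relIndex (h : LERF G) {L S : Subgroup G} (hle : L ≤ S) (hS : S.FG)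
    (hi : L.relIndex S ≠ 0) : ∃ J : Subgroup G, J.FiniteIndex ∧ L ≤ J ∧ J ⊓ S ≤ L := by
  have : (L.subgroupOf S).FiniteIndex := ⟨hi⟩
  obtain ⟨J, h1, h2, h3⟩ := sep_finite h (fg_of_relIndex hle hS hi)
    (B := Set.range (fun q : S ⧸ L.subgroupOf S => (q.out : G)) \ L)
    ((Set.finite_range _).sdiff) fun x hx => hx.2
  refine ⟨J, h1, h2, fun x hx => ?_⟩
  obtain ⟨l, hl⟩ := QuotientGroup.mk_out_eq_mul (L.subgroupOf S) ⟨x, hx.2⟩
  have h4 : ((l : S) : G) ∈ L := l.2
  by_contra e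
  refine h3 (x * (l : S)) ⟨⟨_, congrArg Subtype.val hl⟩, fun e' => e ?_⟩ (mul_mem hx.1 (h2 h4))
  simpa using mul_mem e' (inv_mem h4)

lemma fg_subgroupOf {A H : Subgroup G} (hle : A ≤ H) (hA : A.FG) : (A.subgroupOf H).FG := by
  have : Group.FG A := (Group.fg_iff_subgroup_fg A).2 hA
  exact (Group.fg_iff_subgroup_fg _).1 (Group.fg_of_surjective
    (f := (subgroupOfEquivOfLe hle).symm.toMonoidHom) (subgroupOfEquivOfLe hle).symm.surjective)

lemma exists_deg (d : Dg G) {m : ℤ} (hm : m ≠ 0) :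
    ∃ N : Subgroup G, N.Normal ∧ N.FiniteIndex ∧ ∀ x, x ∈ N ↔ m ∣ dg d x := by
  have : NeZero m.natAbs := ⟨Int.natAbs_ne_zero.2 hm⟩
  refine ⟨((AddMonoidHom.toMultiplicative (Int.castAddHom (ZMod m.natAbs))).comp d).ker,
    inferInstance, inferInstance, fun x => ?_⟩
  rw [MonoidHom.mem_ker, ← Int.natAbs_dvd, ← ZMod.intCast_zmod_eq_zero_iff_dvd]
  exact Iff.rfl

/-- Classes near the degree have finitely generated kernel. -/
lemma ker_fg' (d η : Dg G) (τ : G) (hτ : ∀ x, dg d τ ∣ dg d x) (h : d.ker.FG) :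
    ∃ N0 : ℤ, ∀ M : ℤ, N0 ≤ M * dg d τ + dg η τ → ∀ K : Subgroup G,
      (∀ x, x ∈ K ↔ M * dg d x + dg η x = 0) → K.FG := by
  obtain ⟨S, hS, hS'⟩ := (Subgroup.fg_iff _).1 h
  have h1 : ∀ s ∈ S, dg d s = 0 := fun s hs => (mem_ker_iff _ _).1 (hS ▸ subset_closure hs)
  obtain ⟨N0, h0⟩ := MP_288210_al.ker_fg hS' τ (by
    rw [eq_top_iff]
    intro x _
    obtain ⟨c, hc⟩ := hτ x
    have h2 : x * (τ ^ c)⁻¹ ∈ closure S := by
      rw [hS, mem_ker_iff, dg_mul, dg_inv, dg_zpow, hc]; ring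
    simpa using mul_mem (closure_mono (Set.subset_insert τ S) h2)
      (zpow_mem (subset_closure (Set.mem_insert τ S)) c)) (fun s hs => by
    rw [hS, mem_ker_iff, mem_ker_iff, dg_mul, dg_mul, dg_mul, dg_mul, dg_inv, h1 s hs]
    constructor <;> ring) (dg η)
  exact ⟨N0, fun M hM K hK => h0 (fun x => M * dg d x + dg η x)
    (fun a b => by rw [dg_mul, dg_mul]; ring) (fun s hs => by rw [h1 s hs]; ring) hM K hK⟩

section Tree

variable {V : Type} {Y : SimpleGraph V}

lemma parent_unique (hY : Y.IsTree) {o a b c : V} (h1 : Y.Adj a b) (h2 : Y.Adj c b)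
    (e1 : Y.dist o b = Y.dist o a + 1) (e2 : Y.dist o b = Y.dist o c + 1) : a = c := by
  obtain ⟨p, -, hp⟩ := hY.connected.exists_path_of_dist o a
  obtain ⟨q, -, hq⟩ := hY.connected.exists_path_of_dist o c
  have p1 : (p.concat h1).IsPath := SimpleGraph.Walk.isPath_of_length_eq_dist _ (by
    rw [SimpleGraph.Walk.length_concat, hp, e1])
  have p2 : (q.concat h2).IsPath := SimpleGraph.Walk.isPath_of_length_eq_dist _ (by
    rw [SimpleGraph.Walk.length_concat, hq, e2])
  have e := (hY.existsUnique_path o b).unique p1 p2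
  have := congrArg SimpleGraph.Walk.penultimate e
  simpa using this

lemma dist_step (hY : Y.IsTree) {o a b c : V} (h1 : Y.Adj a b) (h2 : Y.Adj b c) (hne : a ≠ c)
    (e : Y.dist o b = Y.dist o a + 1) : Y.dist o c = Y.dist o b + 1 :=
  (hY.dist_eq_dist_add_one_of_adj o h2).resolve_left fun e' =>
    hne (parent_unique hY h1 h2.symm e e')

lemma exists_parent (hY : Y.IsTree) {o b : V} (h : b ≠ o) :
    ∃ a, Y.Adj a b ∧ Y.dist o b = Y.dist o a + 1 := by
  obtain ⟨p, -, hp⟩ := hY.connected.exists_path_of_dist b o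
  cases p with
  | nil => exact (h rfl).elim
  | @cons _ a _ h1 q =>
    refine ⟨a, h1.symm, (hY.dist_eq_dist_add_one_of_adj o h1).resolve_right fun e => ?_⟩
    have h2 := SimpleGraph.dist_le q
    rw [SimpleGraph.Walk.length_cons, SimpleGraph.dist_comm] at hp
    rw [SimpleGraph.dist_comm] at h2
    omega

/-- Geodesics lift along a locally injective map to a tree. -/
lemma tree_lift (hY : Y.IsTree) {X : Type} (R : X → X → Prop) (π : X → V)
    (hadj : ∀ x y, R x y → Y.Adj (π x) (π y))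
    (hinj : ∀ x y z, R x y → R y z → π x = π z → x = z) {o y : X}
    (h : Relation.ReflTransGen R o y) :
    y = o ∨ ∃ p, R p y ∧ Y.dist (π o) (π y) = Y.dist (π o) (π p) + 1 := by
  have key : Relation.ReflTransGen
      (fun p y => R p y ∧ Y.dist (π o) (π y) = Y.dist (π o) (π p) + 1) o y := by
    induction h with
    | refl => exact .refl
    | @tail y z _ hyz ih =>
      rcases hY.dist_eq_dist_add_one_of_adj (π o) (hadj _ _ hyz) with e | e
      · rcases ih.cases_tail with rfl | ⟨p, h1, h2, h3⟩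
        · simp at e
        · rwa [← hinj _ _ _ h2 hyz (parent_unique hY (hadj _ _ h2) (hadj _ _ hyz).symm h3 e)]
      · exact ih.tail ⟨hyz, e⟩
  rcases key.cases_tail with e | ⟨p, -, h2⟩
  · exact Or.inl e
  · exact Or.inr ⟨p, h2⟩

/-- Potentials of antisymmetric cochains on a tree. -/
lemma exists_pot (hY : Y.IsTree) {A : Type} [Group A] (ω : V → V → A)
    (hω : ∀ a b, Y.Adj a b → ω b a = (ω a b)⁻¹) :
    ∃ Θ : V → A, ∀ a b, Y.Adj a b → Θ b = Θ a * ω a b := by
  classical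
  obtain ⟨o⟩ := hY.connected.nonempty
  choose! par h1 h2 using fun b (h : b ≠ o) => exists_parent hY h
  let F : ℕ → V → A := fun n => Nat.rec (fun _ => 1) (fun _ f b => f (par b) * ω (par b) b) n
  have key : ∀ a b, Y.Adj a b → Y.dist o b = Y.dist o a + 1 →
      F (Y.dist o b) b = F (Y.dist o a) a * ω a b := fun a b h e => by
    have hb : b ≠ o := by rintro rfl; simp at e
    rw [e, ← parent_unique hY (h1 b hb) h (h2 b hb) e]
  refine ⟨fun b => F (Y.dist o b) b, fun a b h => ?_⟩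
  rcases hY.dist_eq_dist_add_one_of_adj o h with e | e
  · simp only [key b a h.symm e, hω a b h, inv_mul_cancel_right]
  · exact key a b h e

end Tree

end Pool.Agent.Lib.FBC.X2
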