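import Pool.Agent.Lib.FBC.Blue0
import Pool.Agent.Lib.FBC.X2.Base

/-!
Spirality: a loop along which two slopes disagree contradicts subgroup separability.
-/

namespace Pool.Agent.Lib.FBC.X2

open Pool.Agent.Lib.MP_288210_al (LERF exists_mul ker_fg)
open Subgroup

variable {G : Type} [Group G]

lemma out_smul {V : Type} [MulAction G V] {B : Subgroup G} {v : V} (h : ∀ x ∈ B, x • v = v)
    (k : G) : (k : G ⧸ B).out • v = k • v := by
  obtain ⟨b, hb⟩ := QuotientGroup.mk_out_eq_mul B k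
  rw [hb, mul_smul, h b b.2]

/-- Combination: the geodesic from `v` to `k • v` starts inside the expected two orbits. -/
lemma comb (T : GTree G) {v w w' : T.V} {g : G} {B C : Subgroup G} (hvw : T.Y.Adj v w)
    (hvw' : T.Y.Adj v w') (hg : g • w' = w) (hB : ∀ x ∈ B, x • v = v) (hC : ∀ x ∈ C, x • w = w)
    (e1 : ∀ x ∈ B, x • w = w → x ∈ C) (e2 : ∀ x ∈ B, x • w' = w' → g * x * g⁻¹ ∈ C)
    (e3 : ∀ x ∈ C, x • v = v → x ∈ B) (e4 : ∀ x ∈ C, x • g • v = g • v → g⁻¹ * x * g ∈ B)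
    (e5 : ∀ x ∈ C, x • v ≠ g • v) (e6 : ∀ x ∈ B, x • w ≠ w') {k : G}
    (hk : k ∈ B ⊔ C ⊔ zpowers g) (hkv : k • v ≠ v) :
    ∃ b ∈ B, T.Y.dist (k • v) v = T.Y.dist (k • v) (b • w) + 1 ∨
      T.Y.dist (k • v) v = T.Y.dist (k • v) (b • w') + 1 := by
  have hg' : g⁻¹ • w = w' := by rw [← hg, inv_smul_smul]
  let X := (G ⧸ B) ⊕ (G ⧸ C)
  let π : X → T.V := Sum.elim (fun q => q.out • v) fun q => q.out • w
  have p1 : ∀ k : G, π (.inl k) = k • v := out_smul hB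
  have p2 : ∀ k : G, π (.inr k) = k • w := out_smul hC
  let E : X → X → Prop := fun x y => ∃ k : G, x = .inl k ∧ (y = .inr k ∨ y = .inr (k * g⁻¹ : G))
  let R : X → X → Prop := fun x y => E x y ∨ E y x
  have a1 : ∀ x y, E x y → T.Y.Adj (π x) (π y) := by
    rintro _ _ ⟨k, rfl, rfl | rfl⟩
    · rw [p1, p2]; exact T.adj_smul k _ _ hvw
    · rw [p1, p2, mul_smul, hg']; exact T.adj_smul k _ _ hvw'
  have mv : ∀ (a b : G) (x y : T.V), a • x = b • y → (b⁻¹ * a) • x = y := fun a b x y h => by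
    rw [mul_smul, h, inv_smul_smul]
  have i1 : ∀ x y z, E y x → E y z → π x = π z → x = z := by
    rintro _ _ _ ⟨k, rfl, hx⟩ ⟨k', h, hz⟩ e
    have hb : k'⁻¹ * k ∈ B := QuotientGroup.eq.1 (Sum.inl.inj h).symm
    rcases hx with rfl | rfl <;> rcases hz with rfl | rfl <;> rw [p2, p2] at e
    · exact congrArg Sum.inr (QuotientGroup.eq.2 (e1 _ hb (mv _ _ _ _ e))).symm
    · rw [mul_smul, hg'] at e
      exact (e6 _ hb (mv _ _ _ _ e)).elim
    · rw [mul_smul, hg'] at e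
      exact (e6 _ (by simpa using inv_mem hb) (mv _ _ _ _ e.symm)).elim
    · rw [mul_smul, mul_smul, hg'] at e
      refine congrArg Sum.inr (QuotientGroup.eq.2 ?_).symm
      simpa [mul_assoc] using e2 _ hb (mv _ _ _ _ e)
  have i2 : ∀ x y z, E x y → E z y → π x = π z → x = z := by
    rintro _ y _ ⟨k, rfl, hx⟩ ⟨k', rfl, hz⟩ e
    rw [p1, p1] at e
    have e' := mv _ _ _ _ e
    refine congrArg Sum.inl (QuotientGroup.eq.2 ?_).symm
    rcases hx with rfl | rfl <;> rcases hz with h | h <;>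
      replace h := QuotientGroup.eq.1 (Sum.inr.inj h).symm
    · exact e3 _ h e'
    · refine (e5 _ h ?_).elim
      rw [mul_inv_rev, inv_inv, mul_assoc, mul_smul, e']
    · refine (e5 _ (inv_mem h) ?_).elim
      rw [inv_smul_eq_iff, ← mul_assoc, mul_smul, inv_smul_smul, e']
    · have := e4 _ h (by
        rw [mul_inv_rev, inv_inv, ← mul_assoc, mul_smul, inv_smul_smul, mul_assoc, mul_smul, e'])
      simpa [mul_assoc] using this
  have i3 : ∀ x y z, E x y → ¬ E y z := by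
    rintro _ _ _ ⟨k, rfl, rfl | rfl⟩ ⟨k', h, -⟩ <;> exact absurd h (by simp)
  have sy : ∀ x y, Relation.ReflTransGen R x y → Relation.ReflTransGen R y x := fun x y h => by
    induction h with
    | refl => exact .refl
    | tail _ h ih => exact .head (Or.symm h) ih
  let P : Subgroup G :=
    { carrier := {k | ∀ h : G, Relation.ReflTransGen R (.inl (h * k : G)) (.inl h)}
      mul_mem' := fun {a b} ha hb h => by
        rw [← mul_assoc]; exact (hb _).trans (ha h)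
      one_mem' := fun h => by rw [mul_one]
      inv_mem' := fun {a} ha h => by
        have := ha (h * a⁻¹)
        rw [inv_mul_cancel_right] at this
        exact sy _ _ this }
  have hP : B ⊔ C ⊔ zpowers g ≤ P := by
    refine sup_le (sup_le (fun b hb h => ?_) fun c hc h => ?_) (zpowers_le.2 fun h => ?_)
    · rw [QuotientGroup.mk_mul_of_mem h hb]
    · have r1 : R (.inl (h * c : G)) (.inr h) := Or.inl ⟨h * c, rfl, Or.inl (by
        rw [QuotientGroup.mk_mul_of_mem h hc])⟩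
      have r2 : R (.inr h) (.inl h) := Or.inr ⟨h, rfl, Or.inl rfl⟩
      exact .head r1 (.single r2)
    · have r1 : R (.inl (h * g : G)) (.inr h) := Or.inl ⟨h * g, rfl, Or.inr (by
        rw [mul_inv_cancel_right])⟩
      have r2 : R (.inr h) (.inl h) := Or.inr ⟨h, rfl, Or.inl rfl⟩
      exact .head r1 (.single r2)
  have h0 := hP hk 1
  rw [one_mul] at h0
  have h1 := tree_lift T.tree R π (fun x y h => h.elim (a1 x y) fun h => (a1 y x h).symm)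
    (fun x y z h h' e => by
      rcases h with h | h <;> rcases h' with h' | h'
      exacts [(i3 _ _ _ h h').elim, i2 _ _ _ h h' e, i1 _ _ _ h h' e, (i3 _ _ _ h' h).elim]) h0
  rcases h1 with h1 | ⟨p, h1 | ⟨b, h1, h2⟩, h3⟩
  · have := congrArg π h1
    rw [p1, p1, one_smul] at this
    exact (hkv this.symm).elim
  · obtain ⟨_, -, h | h⟩ := h1 <;> exact absurd h (by simp)
  · have hb : b ∈ B := by simpa using QuotientGroup.eq.1 (Sum.inl.inj h1)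
    rw [p1, p1, one_smul] at h3
    refine ⟨b, hb, ?_⟩
    rcases h2 with rfl | rfl
    · exact Or.inl (by rwa [p2] at h3)
    · exact Or.inr (by rwa [p2, mul_smul, hg'] at h3)

theorem sun_core (hL : LERF G) (T : GTree G) {v w w' : T.V} {g τ τ' b0 : G} {H B C : Subgroup G}
    (ψ : G → ℤ) (hvw : T.Y.Adj v w) (hvw' : T.Y.Adj v w') (hg : g • w' = w)
    (hH : ∀ x ∈ H, x • v = v) (hψ : ∀ x ∈ H, ∀ y ∈ H, ψ (x * y) = ψ x + ψ y)
    (hB : ∀ x, x ∈ B ↔ x ∈ H ∧ ψ x = 0) (fB : B.FG) (fC : C.FG) (hC : ∀ x ∈ C, x • w = w)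
    (hτ : τ ∈ H) (hτ' : τ' ∈ H) (m0 : 0 < ψ τ') (m1 : ψ τ' < ψ τ)
    (hc : ∀ j : ℤ, τ ^ j * g * τ' ^ (-j) * g⁻¹ ∈ C)
    (e1 : ∀ x ∈ B, x • w = w → x ∈ C) (e2 : ∀ x ∈ B, x • w' = w' → g * x * g⁻¹ ∈ C)
    (e3 : ∀ x ∈ C, x • v = v → x ∈ B) (e4 : ∀ x ∈ C, x • g • v = g • v → g⁻¹ * x * g ∈ B)
    (e5 : ∀ x ∈ C, x • v ≠ g • v) (e6 : ∀ x ∈ H, x • w ≠ w')
    (e7 : ∀ x ∈ H, x • w = w → ψ τ ∣ ψ x) (hb : b0 ∈ B) (hb' : b0 • w' ≠ w') : False := by
  let Ψ : H →* Multiplicative ℤ := MonoidHom.mk' (fun x => Multiplicative.ofAdd (ψ x))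
    fun x y => congrArg Multiplicative.ofAdd (hψ x x.2 y y.2)
  have p1 : ∀ x ∈ H, ∀ m : ℤ, ψ (x ^ m) = m * ψ x := fun x hx m =>
    congrArg Multiplicative.toAdd (map_zpow Ψ ⟨x, hx⟩ m)
  have p2 : ∀ x ∈ H, ψ x⁻¹ = -ψ x := fun x hx => by simpa using p1 x hx (-1)
  obtain ⟨hb1, hb2⟩ := (hB _).1 hb
  have hx : τ' * (g * b0 * g⁻¹) * τ'⁻¹ ∈ B ⊔ C ⊔ zpowers g := by
    rw [hL _ ((fB.sup fC).sup (fg_zpowers g)), mem_sInf]
    rintro J ⟨hJf, hJ⟩
    have l1 : ∀ x ∈ H, ψ x = 0 → x ∈ J := fun x h1 h2 =>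
      hJ (mem_sup_left (mem_sup_left ((hB x).2 ⟨h1, h2⟩)))
    have l2 : g ∈ J := hJ (mem_sup_right (mem_zpowers g))
    have l3 : ∀ j : ℤ, τ ^ j * g * τ' ^ (-j) * g⁻¹ ∈ J := fun j =>
      hJ (mem_sup_left (mem_sup_right (hc j)))
    let S : AddSubgroup ℤ := Subgroup.toAddSubgroup' ((J.subgroupOf H).map Ψ)
    have l4 : ∀ x ∈ H, x ∈ J ↔ ψ x ∈ S := fun x hx =>
      ⟨fun h => ⟨⟨x, hx⟩, h, rfl⟩, fun ⟨y, h1, h2⟩ => by
        have h3 : ψ y = ψ x := congrArg Multiplicative.toAdd h2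
        have h4 := l1 ((y : G)⁻¹ * x) (mul_mem (inv_mem y.2) hx) (by
          rw [hψ _ (inv_mem y.2) _ hx, p2 _ y.2, h3]; ring)
        have h5 : (y : G) ∈ J := h1
        simpa using mul_mem h5 h4⟩
    obtain ⟨d, hd⟩ := Int.subgroup_cyclic S
    have l5 : ∀ n, n ∈ S ↔ d ∣ n := fun n => by
      rw [hd, ← AddSubgroup.zmultiples_eq_closure, Int.mem_zmultiples_iff]
    have hd0 : d ≠ 0 := by
      obtain ⟨n, h1, -, h2⟩ := exists_pow_mem_of_index_ne_zero hJf.index_ne_zero τ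
      rw [l4 _ (pow_mem hτ n), l5, ← zpow_natCast, p1 _ hτ] at h2
      rintro rfl
      rcases mul_eq_zero.1 (zero_dvd_iff.1 h2) with h | h <;> omega
    obtain ⟨m, hm⟩ := exists_mul (p := ψ τ) (q := ψ τ') hd0 fun m hm => by
      rw [← p1 _ hτ, ← l5, ← l4 _ (zpow_mem hτ m)] at hm
      rw [← p1 _ hτ', ← l5, ← l4 _ (zpow_mem hτ' m)]
      have := mul_mem (mul_mem (inv_mem l2) (mul_mem (inv_mem (l3 m)) hm)) l2
      convert this using 1
      group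
    have l6 : τ' * (τ ^ m)⁻¹ ∈ J := by
      rw [l4 _ (mul_mem hτ' (inv_mem (zpow_mem hτ m))), l5,
        hψ _ hτ' _ (inv_mem (zpow_mem hτ m)), p2 _ (zpow_mem hτ m), p1 _ hτ]
      exact hm
    have l7 := l1 (τ' ^ m * b0 * (τ' ^ m)⁻¹)
      (mul_mem (mul_mem (zpow_mem hτ' m) hb1) (inv_mem (zpow_mem hτ' m))) (by
        rw [hψ _ (mul_mem (zpow_mem hτ' m) hb1) _ (inv_mem (zpow_mem hτ' m)),
          hψ _ (zpow_mem hτ' m) _ hb1, p2 _ (zpow_mem hτ' m), hb2]; ring)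
    have l8 := mul_mem (mul_mem l6 (l3 m)) l2
    convert mul_mem (mul_mem l8 l7) (inv_mem l8) using 1
    group
  have hv : τ' • v = v := hH _ hτ'
  have hv' : τ'⁻¹ • v = v := hH _ (inv_mem hτ')
  have hgv : v ≠ g • v := by simpa using e5 1 (one_mem C)
  have hk : (g * b0 * g⁻¹) • g • v = g • v := by rw [mul_smul, inv_smul_smul, mul_smul, hH _ hb1]
  have hk' : (g * b0 * g⁻¹) • w ≠ w := fun e => hb' (by
    rw [← hg, mul_smul, inv_smul_smul, mul_smul] at e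
    exact MulAction.injective g e)
  generalize g * b0 * g⁻¹ = k at hx hk hk'
  have a0 : T.Y.Adj (g • v) w := hg ▸ T.adj_smul g _ _ hvw'
  have a1 : T.Y.Adj (τ' • k • v) (τ' • k • w) := T.adj_smul _ _ _ (T.adj_smul _ _ _ hvw)
  have a2 : T.Y.Adj (τ' • k • w) (τ' • g • v) :=
    T.adj_smul _ _ _ (hk ▸ T.adj_smul k _ _ a0.symm)
  have a3 : T.Y.Adj (τ' • g • v) (τ' • w) := T.adj_smul _ _ _ a0
  have a4 : T.Y.Adj (τ' • w) v := by
    have := T.adj_smul τ' _ _ hvw.symm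
    rwa [hv] at this
  have d1 : T.Y.dist (τ' • k • v) (τ' • k • w) = T.Y.dist (τ' • k • v) (τ' • k • v) + 1 := by
    rw [SimpleGraph.dist_self, SimpleGraph.dist_eq_one_iff_adj.2 a1]
  have d2 := dist_step T.tree a1 a2 (fun e => hgv (MulAction.injective k
    ((MulAction.injective τ' e).trans hk.symm))) d1
  have d3 := dist_step T.tree a2 a3 (fun e => hk' (MulAction.injective τ' e)) d2
  have d4 := dist_step T.tree a3 a4 (fun e => hgv (MulAction.injective τ' (hv.trans e.symm))) d3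
  have ex : (τ' * k * τ'⁻¹) • v = τ' • k • v := by rw [mul_smul, mul_smul, hv']
  obtain ⟨b, hb3, h⟩ := comb T hvw hvw' hg (fun x hx => hH x ((hB x).1 hx).1) hC e1 e2 e3 e4 e5
    (fun x hx => e6 x ((hB x).1 hx).1) hx (by
      rw [ex]; intro e; rw [e] at d4; simp at d4)
  obtain ⟨hb4, hb5⟩ := (hB _).1 hb3
  have hm := mul_mem (inv_mem hb4) hτ'
  have ab : ∀ u, T.Y.Adj v u → T.Y.Adj (b • u) v := fun u hu => by
    have := T.adj_smul b _ _ hu.symm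
    rwa [hH _ hb4] at this
  rw [ex] at h
  rcases h with h | h
  · have e := parent_unique T.tree a4 (ab _ hvw) d4 h
    have := e7 _ hm (by rw [mul_smul, e, inv_smul_smul])
    rw [hψ _ (inv_mem hb4) _ hτ', p2 _ hb4, hb5, neg_zero, zero_add] at this
    have := Int.le_of_dvd m0 this
    omega
  · have e := parent_unique T.tree a4 (ab _ hvw') d4 h
    exact e6 _ hm (by rw [mul_smul, e, inv_smul_smul])

theorem sun_lt {d : Dg G} (hL : LERF G) (T : GTree G) {v w w' : T.V} {g : G} {L : Subgroup G}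
    (η : Dg L) (t t' : L) (hvw : T.Y.Adj v w) (hvw' : T.Y.Adj v w') (hg : g • w' = w)
    (hgv : g • v ≠ v) (fv : (d.ker ⊓ MulAction.stabilizer G v).FG)
    (fw : (d.ker ⊓ MulAction.stabilizer G w).FG)
    (hx : ∃ x ∈ d.ker, x • v = v ∧ ∀ n : ℕ, 0 < n → x ^ n • w' ≠ w')
    (hle : L ≤ MulAction.stabilizer G v) (hi : L.relIndex (MulAction.stabilizer G v) ≠ 0)
    (h0 : 0 < dg d t) (h1 : dg d t = dg d t') (ht : (t : G) • w = w) (ht' : (t' : G) • w' = w')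
    (hη : dg η t' < dg η t)
    (hz : ∀ z : L, (z : G) ∈ d.ker → ((z : G) • w = w ∨ (z : G) • w' = w') → η z = 1) :
    False := by
  classical
  have fS := fg_of_ker d fv
  obtain ⟨J, j1, -, j3⟩ := sep_relIndex hL hle fS hi
  obtain ⟨J', j4, j5, j6⟩ := sep_finite hL fS (Set.finite_singleton g) (by
    rintro _ rfl; exact hgv)
  set N1 := (J ⊓ J').normalCore with hN1
  have k0 : 0 < N1.index := Nat.pos_of_ne_zero FiniteIndex.index_ne_zero
  have k1 : ∀ x : G, x ^ N1.index ∈ N1 := fun x => pow_index_mem N1 x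
  generalize N1.index = k at k0 k1
  have k2 : (0 : ℤ) < k * dg d t := mul_pos (by exact_mod_cast k0) h0
  obtain ⟨N2, n1, n2, n3⟩ := exists_deg d k2.ne'
  set N := N1 ⊓ N2 with hN
  have hNJ : N ≤ J ⊓ J' := inf_le_left.trans (normalCore_le _)
  set H := N ⊓ MulAction.stabilizer G v with hH
  have hHL : H ≤ L := (inf_le_inf_right _ (hNJ.trans inf_le_left)).trans j3
  have hτ : (t : G) ^ k ∈ H := ⟨⟨k1 _, (n3 _).2 (by rw [dg_pow])⟩, pow_mem (hle t.2) k⟩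
  have hτ' : (t' : G) ^ k ∈ H := ⟨⟨k1 _, (n3 _).2 (by rw [dg_pow, h1])⟩, pow_mem (hle t'.2) k⟩
  obtain ⟨N0, h2⟩ := ker_fg' (d.comp H.subtype) (η.comp (inclusion hHL)) ⟨_, hτ⟩
    (fun x => (dg_pow d t k).symm ▸ (n3 _).1 x.2.1.2) (by
      convert fg_subgroupOf (H := H) (inf_le_inf_left N inf_le_right) (fg_inf fv N) using 1
      ext x
      exact ⟨fun h => ⟨x.2.1, h, x.2.2⟩, fun h => h.2.1⟩)
  obtain ⟨M, M1, M2⟩ : ∃ M : ℤ, N0 ≤ M * (k * dg d t) + k * dg η t ∧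
      0 < M * (k * dg d t) + k * dg η t' := by
    refine ⟨|N0| + |k * dg η t| + |k * dg η t'| + 1, ?_, ?_⟩ <;>
      nlinarith [abs_nonneg N0, abs_nonneg (k * dg η t), abs_nonneg (k * dg η t'), le_abs_self N0,
        neg_abs_le (k * dg η t), neg_abs_le (k * dg η t')]
  let ψ : G → ℤ := fun x => if h : x ∈ L then M * dg d x + dg η ⟨x, h⟩ else 0
  have q0 : ∀ x : L, ψ x = M * dg d x + dg η x := fun x => dif_pos x.2
  have q1 : ∀ x ∈ H, ∀ y ∈ H, ψ (x * y) = ψ x + ψ y := fun x hx y hy => by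
    have e1 := q0 ⟨x, hHL hx⟩
    have e2 := q0 ⟨y, hHL hy⟩
    have e3 := q0 (⟨x, hHL hx⟩ * ⟨y, hHL hy⟩)
    rw [dg_mul η] at e3
    simp only [coe_mul, dg_mul] at e1 e2 e3
    linear_combination e3 - e1 - e2
  let Ψ : H →* Multiplicative ℤ := MonoidHom.mk' (fun x => Multiplicative.ofAdd (ψ x))
    fun x y => congrArg Multiplicative.ofAdd (q1 x x.2 y y.2)
  have p1 : ∀ x ∈ H, ∀ m : ℤ, ψ (x ^ m) = m * ψ x := fun x hx m =>
    congrArg Multiplicative.toAdd (map_zpow Ψ ⟨x, hx⟩ m)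
  have p2 : ∀ x ∈ H, ψ x⁻¹ = -ψ x := fun x hx => by simpa using p1 x hx (-1)
  have q2 : ψ (t ^ k) = M * (k * dg d t) + k * dg η t := by
    have := q0 (t ^ k)
    rwa [dg_pow η, coe_pow, dg_pow] at this
  have q3 : ψ (t' ^ k) = M * (k * dg d t) + k * dg η t' := by
    have := q0 (t' ^ k)
    rwa [dg_pow η, coe_pow, dg_pow, ← h1] at this
  have q4 : ψ (t' ^ k) < ψ (t ^ k) := by
    rw [q2, q3]
    have : (0 : ℤ) < k := by exact_mod_cast k0
    nlinarith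
  have q5 : ∀ x ∈ H, dg d x = 0 → (x • w = w ∨ x • w' = w') → ψ x = 0 := fun x hx h3 h4 => by
    have e1 := q0 ⟨x, hHL hx⟩
    rw [(eq_one_iff _ _).1 (hz ⟨x, hHL hx⟩ h3 h4)] at e1
    simpa [h3] using e1
  have q6 : ∀ τ ∈ H, dg d τ = k * dg d t → ∀ u, (u = w ∨ u = w') → τ • u = u → ∀ x ∈ H,
      x • u = u → ∃ j : ℤ, dg d x = j * (k * dg d t) ∧ ψ x = j * ψ τ :=
    fun τ h3 h4 u h5 h6 x hx h7 => by
      obtain ⟨j, hj⟩ := (n3 x).1 hx.1.2
      have h8 : (x * (τ ^ j)⁻¹) • u = u :=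
        mul_mem (s := MulAction.stabilizer G u) h7 (inv_mem (zpow_mem h6 j))
      have h9 := q5 _ (mul_mem hx (inv_mem (zpow_mem h3 j)))
        (by rw [dg_mul, dg_inv, dg_zpow, hj, h4]; ring) (by rcases h5 with rfl | rfl <;> simp [h8])
      rw [q1 _ hx _ (inv_mem (zpow_mem h3 j)), p2 _ (zpow_mem h3 j), p1 _ h3] at h9
      exact ⟨j, by rw [hj]; ring, by linarith⟩
  have s1 : (t : G) ^ k • w = w := pow_mem (S := MulAction.stabilizer G w) ht k
  have s2 : (t' : G) ^ k • w' = w' := pow_mem (S := MulAction.stabilizer G w') ht' k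
  have q7 := q6 _ hτ (dg_pow d t k) w (Or.inl rfl) s1
  have q8 := q6 _ hτ' (by rw [dg_pow, h1]) w' (Or.inr rfl) s2
  have hB : ∀ x, x ∈ Ψ.ker.map H.subtype ↔ x ∈ H ∧ ψ x = 0 := fun x =>
    ⟨by rintro ⟨y, h3, rfl⟩; exact ⟨y.2, h3⟩, fun h => ⟨⟨x, h.1⟩, h.2, rfl⟩⟩
  have hC : ∀ x, x ∈ N ⊓ (d.ker ⊓ MulAction.stabilizer G w) ↔ x ∈ N ∧ dg d x = 0 ∧ x • w = w :=
    fun x => Iff.rfl
  have hg' : g⁻¹ • w = w' := by rw [← hg, inv_smul_smul]
  have nN : N.Normal := inferInstance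
  rw [← q3] at M2
  obtain ⟨x, x1, x2, x3⟩ := hx
  have y1 : x ^ N.index ∈ H := ⟨pow_index_mem N x, pow_mem (S := MulAction.stabilizer G v) x2 _⟩
  refine sun_core hL T (H := H) (C := N ⊓ (d.ker ⊓ MulAction.stabilizer G w)) ψ hvw hvw' hg
    (fun x hx => hx.2) q1 hB (fg_map _ (h2 M ?_ _ fun x => ?_)) (fg_inf fw N) (fun x hx => hx.2.2)
    hτ hτ' M2 q4 (fun j => ?_) (fun x hx h => ?_) (fun x hx h => ?_) (fun x hx h => ?_)
    (fun x hx h => ?_) (fun x hx h => ?_) (fun x hx h => ?_) (fun x hx h => ?_)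
    (b0 := (x ^ N.index) ^ ψ (t' ^ k) * (((t' : G) ^ k) ^ ψ (x ^ N.index))⁻¹) ?_ ?_
  · exact (q2.symm.trans (q0 (t ^ k))) ▸ M1
  · exact (q0 ⟨x, hHL x.2⟩) ▸ Iff.rfl
  · refine (hC _).2 ⟨?_, ?_, ?_⟩
    · rw [mul_assoc, mul_assoc, ← mul_assoc g]
      exact mul_mem (zpow_mem (mem_inf.1 hτ).1 j) (nN.conj_mem _ (zpow_mem (mem_inf.1 hτ').1 _) g)
    · simp only [dg_mul, dg_inv, dg_zpow, dg_pow, h1]; ring
    · rw [mul_smul, hg', mul_smul, zpow_mem (K := MulAction.stabilizer G w') s2, mul_smul, hg]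
      exact zpow_mem (K := MulAction.stabilizer G w) s1 j
  · obtain ⟨h3, h4⟩ := (hB x).1 hx
    obtain ⟨j, h5, h6⟩ := q7 x h3 h
    rw [h4, eq_comm, mul_eq_zero, or_iff_left (by omega)] at h6
    exact (hC _).2 ⟨h3.1, by rw [h5, h6, zero_mul], h⟩
  · obtain ⟨h3, h4⟩ := (hB x).1 hx
    obtain ⟨j, h5, h6⟩ := q8 x h3 h
    rw [h4, eq_comm, mul_eq_zero, or_iff_left (by omega)] at h6
    exact (hC _).2 ⟨nN.conj_mem _ h3.1 g, by rw [dg_mul, dg_mul, dg_inv, h5, h6]; ring,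
      by rw [mul_smul, hg', mul_smul, h, hg]⟩
  · obtain ⟨h3, h4, h5⟩ := (hC x).1 hx
    exact (hB _).2 ⟨⟨h3, h⟩, q5 _ ⟨h3, h⟩ h4 (Or.inl h5)⟩
  · obtain ⟨h3, h4, h5⟩ := (hC x).1 hx
    have h6 : g⁻¹ * x * g ∈ H := mem_inf.2 ⟨nN.conj_mem' _ h3 g, by
      rw [MulAction.mem_stabilizer_iff, mul_smul, mul_smul, h, inv_smul_smul]⟩
    exact (hB _).2 ⟨h6, q5 _ h6 (by rw [dg_mul, dg_mul, dg_inv, h4]; ring)
      (Or.inr (by rw [mul_smul, mul_smul, hg, h5, hg']))⟩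
  · have h3 : x⁻¹ * g ∈ MulAction.stabilizer G v := by
      rw [MulAction.mem_stabilizer_iff, mul_smul, ← h, inv_smul_smul]
    exact j6 g rfl (by simpa using mul_mem (hNJ hx.1).2 (j5 h3))
  · obtain ⟨j, h5, h6⟩ := q8 _ (mul_mem (mul_mem hx hτ) (inv_mem hx)) (by
      rw [← h, mul_smul, inv_smul_smul, mul_smul, s1])
    rw [dg_mul, dg_mul, dg_inv, dg_pow] at h5
    rw [q1 _ (mul_mem hx hτ) _ (inv_mem hx), q1 _ hx _ hτ, p2 _ hx] at h6
    have : j = 1 := mul_right_cancel₀ k2.ne' (by linarith)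
    rw [this] at h6
    linarith
  · obtain ⟨j, -, h6⟩ := q7 x hx h
    exact ⟨j, by rw [h6, mul_comm]⟩
  · refine (hB _).2 ⟨mul_mem (zpow_mem y1 _) (inv_mem (zpow_mem hτ' _)), ?_⟩
    rw [q1 _ (zpow_mem y1 _) _ (inv_mem (zpow_mem hτ' _)), p2 _ (zpow_mem hτ' _), p1 _ y1,
      p1 _ hτ']
    ring
  · intro e
    rw [mul_smul, inv_mem (x := _ ^ ψ (x ^ N.index)) (s := MulAction.stabilizer G w')
      (zpow_mem s2 _), ← Int.toNat_of_nonneg M2.le, zpow_natCast, ← pow_mul] at e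
    exact x3 _ (Nat.mul_pos (Nat.pos_of_ne_zero FiniteIndex.index_ne_zero) (by omega)) e

/-- Spirality, without hypotheses on the edge groups. -/
theorem sun {d : Dg G} (hL : LERF G) (T : GTree G) {v w w' : T.V} {g : G} {L : Subgroup G}
    (η : Dg L) (t t' : L) (hvw : T.Y.Adj v w) (hvw' : T.Y.Adj v w') (hg : g • w' = w)
    (hgv : g • v ≠ v) (fv : (d.ker ⊓ MulAction.stabilizer G v).FG)
    (fw : (d.ker ⊓ MulAction.stabilizer G w).FG)
    (hx : ∃ x ∈ d.ker, x • v = v ∧ ∀ n : ℕ, 0 < n → x ^ n • w' ≠ w')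
    (hle : L ≤ MulAction.stabilizer G v) (hi : L.relIndex (MulAction.stabilizer G v) ≠ 0)
    (h0 : 0 < dg d t) (h1 : dg d t = dg d t') (ht : (t : G) • w = w) (ht' : (t' : G) • w' = w')
    (hη : η t ≠ η t')
    (hz : ∀ z : L, (z : G) ∈ d.ker → ((z : G) • w = w ∨ (z : G) • w' = w') → η z = 1) :
    False := by
  rcases lt_or_gt_of_ne (show dg η t ≠ dg η t' from hη) with h | h
  · exact sun_lt hL T η⁻¹ t t' hvw hvw' hg hgv fv fw hx hle hi h0 h1 ht ht' (neg_lt_neg h)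
      fun z h2 h3 => by rw [MonoidHom.inv_apply, hz z h2 h3, inv_one]
  · exact sun_lt hL T η t t' hvw hvw' hg hgv fv fw hx hle hi h0 h1 ht ht' h hz

theorem stSUN : St_SUN := fun _ _ _ hd T _ _ _ _ _ _ _ η t t' hvw hvw' hg hgv fv fw _ _ _ _ hx =>
  sun hd.lerf T η t t' hvw hvw' hg hgv fv fw hx

end Pool.Agent.Lib.FBC.X2
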