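import Pool.Agent.Lib.FBC.X2.Base

/-!
Free groups: commuting elements, independent homomorphisms, virtual extension of homomorphisms.
-/

namespace Pool.Agent.Lib.FBC.X2

open Pool.Agent.Lib.MP_288210_al (LERF)
open Subgroup

section

variable {A : Type} [Group A] [IsFreeGroup A]

lemma tf : IsMulTorsionFree A :=
  Function.Injective.isMulTorsionFree (IsFreeGroup.toFreeGroup A).toMonoidHom
    (IsFreeGroup.toFreeGroup A).injective

lemma closure_of : closure (Set.range (IsFreeGroup.of (G := A))) = ⊤ := by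
  have := congrArg (map (IsFreeGroup.mulEquiv A).toMonoidHom) (FreeGroup.closure_range_of _)
  rw [MonoidHom.map_closure, ← Set.range_comp, map_top_of_surjective _
    (IsFreeGroup.mulEquiv A).surjective] at this
  exact this

lemma exists_hom (h : ∃ x : A, x ≠ 1) {B : Type} [Group B] (b : B) :
    ∃ (χ : A →* B) (x : A), χ x = b := by
  rcases isEmpty_or_nonempty (IsFreeGroup.Generators A) with e | ⟨⟨i⟩⟩
  · obtain ⟨x, hx⟩ := h
    have : x ∈ closure (Set.range (IsFreeGroup.of (G := A))) := closure_of (A := A) ▸ mem_top x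
    rw [Set.range_eq_empty, Subgroup.closure_empty] at this
    exact (hx this).elim
  · exact ⟨IsFreeGroup.lift fun _ => b, IsFreeGroup.of i, IsFreeGroup.lift_of _ _⟩

/-- A free group is cyclic, or it is not commutative and has two independent characters. -/
lemma dichotomy : (∃ r : A, ∀ x, x ∈ zpowers r) ∨ ((∃ x y : A, x * y ≠ y * x) ∧
    ∃ χ χ' : Dg A, ∀ a b : ℤ, (∀ x, a * dg χ x + b * dg χ' x = 0) → a = 0 ∧ b = 0) := by
  classical
  rcases subsingleton_or_nontrivial (IsFreeGroup.Generators A) with e | ⟨⟨i, j, hij⟩⟩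
  · left
    have h : ∀ r : A, (∀ i, IsFreeGroup.of i ∈ zpowers r) → ∀ x, x ∈ zpowers r := fun r h x =>
      (closure_le _).2 (Set.range_subset_iff.2 h) (closure_of (A := A) ▸ mem_top x)
    rcases isEmpty_or_nonempty (IsFreeGroup.Generators A) with e | ⟨⟨i⟩⟩
    · exact ⟨1, h 1 fun i => isEmptyElim i⟩
    · exact ⟨_, h (IsFreeGroup.of i) fun j => Subsingleton.elim i j ▸ mem_zpowers _⟩
  · right
    refine ⟨⟨IsFreeGroup.of i, IsFreeGroup.of j, fun e => ?_⟩,
      IsFreeGroup.lift fun a => if a = i then .ofAdd 1 else 1,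
      IsFreeGroup.lift fun a => if a = j then .ofAdd 1 else 1, fun a b h => ?_⟩
    · have := congrArg (IsFreeGroup.lift fun a =>
        if a = i then Equiv.swap (0 : Fin 3) 1 else Equiv.swap 1 2) e
      simp only [map_mul, IsFreeGroup.lift_of, if_true, if_neg hij.symm] at this
      exact absurd this (by decide)
    · have h1 := h (IsFreeGroup.of i)
      have h2 := h (IsFreeGroup.of j)
      simp [dg, hij, hij.symm] at h1 h2
      exact ⟨h1, h2⟩

/-- Commuting elements are powers of a common element. -/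
lemma comm_cyc {x y : A} (h : x * y = y * x) :
    ∃ r ∈ closure {x, y}, x ∈ zpowers r ∧ y ∈ zpowers r := by
  rcases dichotomy (A := closure ({x, y} : Set A)) with ⟨r, hr⟩ | ⟨⟨a, b, hab⟩, -⟩
  · obtain ⟨m, hm⟩ := hr ⟨x, subset_closure (by simp)⟩
    obtain ⟨n, hn⟩ := hr ⟨y, subset_closure (by simp)⟩
    exact ⟨r, r.2, ⟨m, congrArg Subtype.val hm⟩, n, congrArg Subtype.val hn⟩
  · have := isMulCommutative_closure (k := ({x, y} : Set A)) (by
      rintro _ (rfl | rfl) _ (rfl | rfl) <;> simp [h])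
    exact (hab (this.is_comm.comm a b)).elim

/-- Two elements that do not commute are homologically independent in the group they generate. -/
lemma indep {U : Subgroup A} (x y : U) (hU : U = closure {(x : A), (y : A)})
    (h : (x : A) * y ≠ y * x) (a b : ℤ) (H : ∀ χ : Dg U, a * dg χ x + b * dg χ y = 0) :
    a = 0 ∧ b = 0 := by
  rcases dichotomy (A := U) with ⟨r, hr⟩ | ⟨-, χ, χ', h2⟩
  · obtain ⟨m, rfl⟩ := hr x
    obtain ⟨n, rfl⟩ := hr y
    exact (h (congrArg Subtype.val (zpow_mul_comm r m n))).elim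
  have key : ∀ p q : ℤ, p * dg χ x + q * dg χ' x = 0 → p * dg χ y + q * dg χ' y = 0 →
      p = 0 ∧ q = 0 := fun p q h3 h4 => h2 p q fun ⟨z, hz⟩ => by
    have hz' : z ∈ closure {(x : A), (y : A)} := hU ▸ hz
    induction hz' using closure_induction with
    | mem s hs => rcases hs with rfl | rfl <;> assumption
    | one => exact (by rw [dg_one, dg_one]; ring : p * dg χ 1 + q * dg χ' 1 = 0)
    | mul s s' h5 h6 i1 i2 =>
      have h7 : s ∈ U := hU ▸ h5
      have h8 : s' ∈ U := hU ▸ h6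
      have : p * dg χ (⟨s, h7⟩ * ⟨s', h8⟩) + q * dg χ' (⟨s, h7⟩ * ⟨s', h8⟩) = 0 := by
        rw [dg_mul, dg_mul]; linear_combination i1 h7 + i2 h8
      exact this
    | inv s h5 i1 =>
      have h7 : s ∈ U := hU ▸ h5
      have : p * dg χ (⟨s, h7⟩)⁻¹ + q * dg χ' (⟨s, h7⟩)⁻¹ = 0 := by
        rw [dg_inv, dg_inv]; linear_combination -i1 h7
      exact this
  have e1 := H χ
  have e2 := H χ'
  by_cases D : dg χ x * dg χ' y - dg χ y * dg χ' x = 0
  · obtain ⟨k1, k2⟩ := key (dg χ' x) (-dg χ x) (by ring) (by linear_combination -D)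
    obtain ⟨k3, k4⟩ := key (dg χ' y) (-dg χ y) (by linear_combination D) (by ring)
    exact absurd (key 0 1 (by rw [k1]; ring) (by rw [k3]; ring)).2 one_ne_zero
  · exact ⟨(mul_eq_zero.1 (by linear_combination dg χ' y * e1 - dg χ y * e2)).resolve_right D,
      (mul_eq_zero.1 (by linear_combination dg χ x * e2 - dg χ' x * e1)).resolve_right D⟩

lemma conj_indep {u a : A} (h : u * a ≠ a * u) : ∃ (U : Subgroup A) (x y : U) (χ : Dg U),
    U.FG ∧ (x : A) = u ∧ (y : A) = a * u * a⁻¹ ∧ χ x ≠ χ y := by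
  have h1 : u * (a * u * a⁻¹) ≠ (a * u * a⁻¹) * u := fun e => by
    obtain ⟨r, h1, ⟨p, hp⟩, q, hq⟩ := comm_cyc e
    let U := closure ({u, a} : Set A)
    let x : U := ⟨u, subset_closure (by simp)⟩
    let y : U := ⟨a, subset_closure (by simp)⟩
    have h2 : r ∈ U := (closure_le U).2 (by
      rintro _ (rfl | rfl)
      exacts [x.2, (y * x * y⁻¹).2]) h1
    have h3 : x = ⟨r, h2⟩ ^ p := Subtype.ext hp.symm
    have h4 : y * x * y⁻¹ = ⟨r, h2⟩ ^ q := Subtype.ext hq.symm
    have h5 := (indep x y rfl h (p - q) 0 fun χ => by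
      have e1 := congrArg (dg χ) h3
      have e2 := congrArg (dg χ) h4
      rw [dg_mul, dg_mul, dg_inv, dg_zpow] at e2
      rw [dg_zpow] at e1
      linear_combination p * e2 - q * e1).1
    rw [sub_eq_zero.1 h5] at hp
    exact h (eq_mul_inv_iff_mul_eq.1 (hp.symm.trans hq))
  let U := closure ({u, a * u * a⁻¹} : Set A)
  let x : U := ⟨u, subset_closure (by simp)⟩
  let y : U := ⟨a * u * a⁻¹, subset_closure (by simp)⟩
  by_contra e
  refine one_ne_zero (indep x y rfl h1 1 (-1) fun χ => ?_).1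
  have : χ x = χ y := by_contra fun e' =>
    e ⟨U, x, y, χ, (fg_iff _).2 ⟨_, rfl, Set.toFinite _⟩, rfl, rfl, e'⟩
  simp [dg, this]

lemma exists_coc (Y : Type) [MulAction A Y] (w : IsFreeGroup.Generators A → Y → ℤ) :
    ∃ Ω : A → Y → ℤ, (∀ a b y, Ω (a * b) y = Ω a (b • y) + Ω b y) ∧
      ∀ i y, Ω (IsFreeGroup.of i) y = w i y := by
  let P : IsFreeGroup.Generators A → Equiv.Perm (Y × ℤ) := fun i =>
    { toFun := fun p => (IsFreeGroup.of i • p.1, p.2 + w i p.1)
      invFun := fun p => ((IsFreeGroup.of i)⁻¹ • p.1, p.2 - w i ((IsFreeGroup.of i)⁻¹ • p.1))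
      left_inv := fun p => by simp
      right_inv := fun p => by simp }
  let ρ := IsFreeGroup.lift P
  have key : ∀ a y n, ρ a (y, n) = (a • y, n + (ρ a (y, 0)).2) := fun a => by
    have ha : a ∈ closure (Set.range (IsFreeGroup.of (G := A))) := closure_of (A := A) ▸ mem_top a
    induction ha using closure_induction with
    | mem s hs => obtain ⟨i, rfl⟩ := hs; intro y n; simp [ρ, P]
    | one => intro y n; simp
    | mul a b _ _ i1 i2 =>
      intro y n
      rw [map_mul, Equiv.Perm.mul_apply, Equiv.Perm.mul_apply, i2, i1, i2 y 0, i1 (b • y) (0 + _),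
        mul_smul]
      simp [add_assoc]
    | inv a _ i1 =>
      have : ∀ y n, ρ a⁻¹ (y, n) = (a⁻¹ • y, n - (ρ a (a⁻¹ • y, 0)).2) := fun y n => by
        rw [map_inv, Equiv.Perm.inv_eq_iff_eq, i1]; simp
      intro y n
      rw [this, this]
      simp [sub_eq_add_neg]
  refine ⟨fun a y => (ρ a (y, 0)).2, fun a b y => ?_, fun i y => by simp [ρ, P]⟩
  simp only [map_mul, Equiv.Perm.mul_apply]
  rw [key b, key a]
  simp [add_comm]

lemma coc_local {X : Type} [MulAction A X] (ω : A → X → ℤ)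
    (hω : ∀ a b y, ω (a * b) y = ω a (b • y) + ω b y) (a : A) : ∀ q, ∃ S : Set X, S.Finite ∧
    ∀ (Y : Type) [MulAction A Y] (π : X → Y) (Ω : A → Y → ℤ), (∀ (a : A) x, π (a • x) = a • π x) →
      (∀ a b y, Ω (a * b) y = Ω a (b • y) + Ω b y) →
      (∀ i, ∀ x ∈ S, Ω (IsFreeGroup.of i) (π x) = ω (IsFreeGroup.of i) x) → Ω a (π q) = ω a q := by
  have ha : a ∈ closure (Set.range (IsFreeGroup.of (G := A))) := closure_of (A := A) ▸ mem_top a
  induction ha using closure_induction with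
  | mem s hs =>
    obtain ⟨i, rfl⟩ := hs
    exact fun q => ⟨{q}, Set.finite_singleton q, fun Y _ π Ω _ _ h => h i q rfl⟩
  | one =>
    refine fun q => ⟨∅, Set.finite_empty, fun Y _ π Ω _ h _ => ?_⟩
    have h1 := h 1 1 (π q)
    have h2 := hω 1 1 q
    rw [mul_one, one_smul] at h1 h2
    omega
  | mul a b _ _ i1 i2 =>
    intro q
    obtain ⟨S, h1, h2⟩ := i1 (b • q)
    obtain ⟨S', h3, h4⟩ := i2 q
    refine ⟨S ∪ S', h1.union h3, fun Y _ π Ω e1 e2 e3 => ?_⟩
    rw [e2, hω, ← e1, h2 Y π Ω e1 e2 fun i x hx => e3 i x (Or.inl hx),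
      h4 Y π Ω e1 e2 fun i x hx => e3 i x (Or.inr hx)]
  | inv a _ i1 =>
    intro q
    obtain ⟨S, h1, h2⟩ := i1 (a⁻¹ • q)
    refine ⟨S, h1, fun Y _ π Ω e1 e2 e3 => ?_⟩
    have h3 := h2 Y π Ω e1 e2 e3
    have h4 := e2 a a⁻¹ (π q)
    have h5 := hω a a⁻¹ q
    have h6 := e2 1 1 (π q)
    have h7 := hω 1 1 q
    rw [mul_one, one_smul] at h6 h7
    rw [mul_inv_cancel] at h4 h5
    rw [e1] at h3
    omega

/-- A character of a finitely generated subgroup virtually extends (on two given elements). -/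
lemma hall (hL : LERF A) {U : Subgroup A} (hU : U.FG) (χ : Dg U) (x y : U) :
    ∃ (J : Subgroup A) (h : U ≤ J) (η : Dg J), J.FiniteIndex ∧ η (inclusion h x) = χ x ∧
      η (inclusion h y) = χ y := by
  classical
  have m : ∀ (a : A) (q : A ⧸ U), (a • q).out⁻¹ * (a * q.out) ∈ U := fun a q =>
    QuotientGroup.eq.1 (by
      rw [QuotientGroup.out_eq']; exact (MulAction.Quotient.mk_smul_out U a q).symm)
  let ω : A → A ⧸ U → ℤ := fun a q => dg χ ⟨_, m a q⟩
  have hω : ∀ a b y, ω (a * b) y = ω a (b • y) + ω b y := fun a b y => by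
    simp only [ω]
    rw [← dg_mul]
    congr 1
    ext
    simp [mul_smul, mul_assoc]
  let o : A ⧸ U := (1 : A)
  have ho : ∀ u : U, ω u o = dg χ u := fun u => by
    have h1 : (u : A) • o = o := QuotientGroup.eq.2 (by simp)
    have h2 : o.out ∈ U := by
      simpa using inv_mem (QuotientGroup.eq.1 (QuotientGroup.out_eq' o))
    have h3 : (⟨_, m u o⟩ : U) = (⟨_, h2⟩)⁻¹ * (u * ⟨_, h2⟩) := Subtype.ext (by simp [h1])
    simp only [ω]
    rw [h3, dg_mul, dg_mul, dg_inv]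
    ring
  obtain ⟨S1, f1, l1⟩ := coc_local ω hω x o
  obtain ⟨S2, f2, l2⟩ := coc_local ω hω y o
  have f := f1.union f2
  obtain ⟨J, j1, j2, j3⟩ := sep_finite hL hU
    (B := (fun p : (A ⧸ U) × (A ⧸ U) => p.1.out⁻¹ * p.2.out) '' ((S1 ∪ S2) ×ˢ (S1 ∪ S2)) \ U)
    ((f.prod f).image _).sdiff fun x hx => hx.2
  let π := quotientMapOfLE j2
  have hπ : ∀ p ∈ S1 ∪ S2, ∀ q ∈ S1 ∪ S2, π p = π q → p = q := fun p hp q hq e => by
    rw [← QuotientGroup.out_eq' p, ← QuotientGroup.out_eq' q] at e ⊢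
    exact QuotientGroup.eq.2 (by_contra fun e' =>
      j3 _ ⟨⟨(p, q), ⟨hp, hq⟩, rfl⟩, e'⟩ (QuotientGroup.eq.1 e))
  have eπ : ∀ (a : A) x, π (a • x) = a • π x := fun a x => by
    induction x using QuotientGroup.induction_on
    rfl
  obtain ⟨Ω, c1, c2⟩ := exists_coc (A ⧸ J) fun i y =>
    if h : ∃ p ∈ S1 ∪ S2, π p = y then ω (IsFreeGroup.of i) h.choose else 0
  have c3 : ∀ i, ∀ p ∈ S1 ∪ S2, Ω (IsFreeGroup.of i) (π p) = ω (IsFreeGroup.of i) p :=
    fun i p hp => by
      have h : ∃ p' ∈ S1 ∪ S2, π p' = π p := ⟨p, hp, rfl⟩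
      rw [c2, dif_pos h, hπ _ h.choose_spec.1 _ hp h.choose_spec.2]
  refine ⟨J, j2, MonoidHom.mk' (fun j => .ofAdd (Ω j (π o))) fun a b => ?_, j1, ?_, ?_⟩
  · have h1 : (b : A) • π o = π o := QuotientGroup.eq.2 (by simp)
    rw [coe_mul, c1, h1, ofAdd_add]
  · exact congrArg Multiplicative.ofAdd
      ((l1 _ π Ω eπ c1 fun i p hp => c3 i p (Or.inl hp)).trans (ho x))
  · exact congrArg Multiplicative.ofAdd
      ((l2 _ π Ω eπ c1 fun i p hp => c3 i p (Or.inr hp)).trans (ho y))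

end

variable {G : Type} [Group G]

lemma exists_map {H : Type} [Group H] (f : H →* G) (hf : Function.Injective f) (L : Subgroup H)
    (η : Dg L) : ∃ η' : Dg (L.map f), ∀ x : L, η' ⟨f x, mem_map_of_mem f x.2⟩ = η x :=
  ⟨η.comp (L.equivMapOfInjective f hf).symm.toMonoidHom, fun x =>
    congrArg η ((L.equivMapOfInjective f hf).symm_apply_apply x)⟩

lemma finiteIndex_map {H : Type} [Group H] (f : H →* G) (hf : Function.Injective f)
    (h : f.range.FiniteIndex) (L : Subgroup H) (hL : L.FiniteIndex) : (L.map f).FiniteIndex :=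
  ⟨by rw [index_map_of_injective _ hf]; exact mul_ne_zero hL.1 h.1⟩

/-- Characters of subgroups of the fibre extend virtually, killing a central element. -/
lemma virt {d : Dg G} (hd : FC d) {z : G} (hz : dg d z ≠ 0) (hc : ∀ x ∈ d.ker, z * x = x * z)
    {U : Subgroup d.ker} (hU : U.FG) (χ : Dg U) (x y : U) (n : ℤ) :
    ∃ (L : Subgroup G) (η : Dg L) (x' y' : L), L.FiniteIndex ∧ (x' : G) = x * z ^ n ∧
      (y' : G) = y * z ^ n ∧ η x' = χ x ∧ η y' = χ y := by
  have := hd.free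
  obtain ⟨J, h, η, j1, j2, j3⟩ :=
    hall (hd.lerf.of_injective d.ker.subtype Subtype.val_injective) hU χ x y
  let μ : d.ker × Multiplicative ℤ →* G := d.ker.subtype.noncommCoprod (zpowersHom G z)
    fun a m => (Commute.symm (hc a a.2)).zpow_right _
  have e : ∀ p, μ p = p.1 * z ^ p.2.toAdd := fun p => rfl
  have hμ : Function.Injective μ := (injective_iff_map_eq_one μ).2 fun p hp => by
    have h1 := congrArg (dg d) hp
    rw [e, dg_mul, dg_zpow, dg_one, (mem_ker_iff _ _).1 p.1.2, zero_add, mul_eq_zero,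
      or_iff_left hz] at h1
    rw [e, h1, zpow_zero, mul_one] at hp
    exact Prod.ext (Subtype.ext hp) h1
  obtain ⟨N, -, n1, n2⟩ := exists_deg d hz
  have hr : μ.range.FiniteIndex := finiteIndex_of_le (H := N) fun g hg => by
    obtain ⟨c, hc⟩ := (n2 g).1 hg
    exact ⟨(⟨g * (z ^ c)⁻¹, (mem_ker_iff _ _).2 (by rw [dg_mul, dg_inv, dg_zpow, hc]; ring)⟩,
      .ofAdd c), by simp [e]⟩
  let L0 := J.comap (MonoidHom.fst d.ker (Multiplicative ℤ))
  have l0 : L0.FiniteIndex := ⟨by rw [index_comap_of_surjective _ Prod.fst_surjective]; exact j1.1⟩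
  obtain ⟨η', h1⟩ := exists_map μ hμ L0
    (η.comp ((MonoidHom.fst d.ker (Multiplicative ℤ)).subgroupComap J))
  exact ⟨L0.map μ, η', ⟨_, mem_map_of_mem μ (⟨(x, .ofAdd n), h x.2⟩ : L0).2⟩,
    ⟨_, mem_map_of_mem μ (⟨(y, .ofAdd n), h y.2⟩ : L0).2⟩, finiteIndex_map μ hμ hr L0 l0, rfl, rfl,
    (h1 _).trans j2, (h1 _).trans j3⟩

/-- In the periodic case, either a power of `t` centralises the fibre, or `t` is virtually
independent of a conjugate. -/
lemma per_vht {d : Dg G} (hd : FC d) (h : Per d) {t : G} (hv : ¬ VHT d ∅ t) :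
    ∃ k : ℕ, 0 < k ∧ ∀ x ∈ d.ker, t ^ k * x = x * t ^ k := by
  have := hd.free
  obtain ⟨z, hz, hc⟩ := h
  have k0 : 0 < (dg d z).natAbs := Int.natAbs_pos.2 hz
  refine ⟨_, k0, fun a ha => by_contra fun e => hv ?_⟩
  obtain ⟨c, h1⟩ : dg d z ∣ dg d (t ^ (dg d z).natAbs) := by
    rw [dg_pow]; exact (Int.dvd_natAbs.2 dvd_rfl).mul_right _
  generalize (dg d z).natAbs = k at k0 e h1
  have hu : t ^ k * (z ^ c)⁻¹ ∈ d.ker :=
    (mem_ker_iff _ _).2 (by rw [dg_mul, dg_inv, dg_zpow, h1]; ring)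
  have h2 : z ^ c * a = a * z ^ c := (Commute.zpow_left (hc a ha) c)
  obtain ⟨U, x, y, χ, h3, h4, h5, h6⟩ := conj_indep (u := (⟨_, hu⟩ : d.ker)) (a := ⟨a, ha⟩)
    fun e' => e (by
      have h3 : t ^ k * (z ^ c)⁻¹ * a = a * (t ^ k * (z ^ c)⁻¹) := congrArg Subtype.val e'
      rw [← mul_assoc, eq_mul_inv_iff_mul_eq, mul_assoc, ← h2] at h3
      simpa [mul_assoc] using h3)
  obtain ⟨L, η, x', y', l1, l2, l3, l4, l5⟩ := virt hd hz hc h3 χ x y c
  refine ⟨L, l1, η, a, k, x', y', ha, k0, by simp [l2, h4], ?_, by rwa [l4, l5], fun _ h => h.elim⟩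
  rw [l3, h5]
  simp [mul_assoc, ← (Commute.zpow_left (hc _ (inv_mem ha)) c).eq]

end Pool.Agent.Lib.FBC.X2
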