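import Pool.Agent.Lib.FBC.X2.SUN
import Pool.Agent.Lib.FBC.X2.Free

/-!
Invariant one-edge free splittings: the monodromy is periodic.
-/

namespace Pool.Agent.Lib.FBC.X2

open Subgroup MulAction

variable {G : Type} [Group G] {d : Dg G}

/-- the size of the fibre -/
noncomputable def mu (d : Dg G) : ℕ := Nat.card (d.ker →* Multiplicative (ZMod 2))

/-- restriction of the degree -/
def res (d : Dg G) (S : Subgroup G) : Dg S := d.comp S.subtype

/-- inclusion of the fibres -/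
def kin (d : Dg G) (S : Subgroup G) : (res d S).ker →* d.ker :=
  (S.subtype.comp (res d S).ker.subtype).codRestrict d.ker fun x => x.2

lemma fc_res (hd : FC d) {S : Subgroup G} {t : G} (ht : t ∈ S) (h1 : dg d t = 1)
    (χ : d.ker →* (res d S).ker) (hχ : ∀ x, χ (kin d S x) = x) : FC (res d S) where
  surj n := ⟨⟨t, ht⟩ ^ n.toAdd, (dg_zpow (res d S) ⟨t, ht⟩ _).trans (by
    rw [show dg (res d S) ⟨t, ht⟩ = 1 from h1, mul_one]; rfl)⟩
  free := by
    have := hd.free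
    exact IsFreeGroup.ofMulEquiv (MonoidHom.ofInjective (Function.LeftInverse.injective hχ)).symm
  fg := by
    have := (Group.fg_iff_subgroup_fg _).2 hd.fg
    exact (Group.fg_iff_subgroup_fg _).1 (Group.fg_of_surjective (f := χ) fun x => ⟨_, hχ x⟩)
  lerf := hd.lerf.of_injective S.subtype Subtype.val_injective

lemma fg_res {S : Subgroup G} (h : (res d S).ker.FG) : (d.ker ⊓ S).FG := by
  convert fg_map S.subtype h using 1
  ext x
  exact ⟨fun h => ⟨⟨x, h.2⟩, h.1, rfl⟩, by rintro ⟨y, h, rfl⟩; exact ⟨h, y.2⟩⟩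

lemma mu_lt (hd : d.ker.FG) {S : Subgroup G}
    (h1 : ∀ α : (res d S).ker →* Multiplicative (ZMod 2), ∃ χ : d.ker →* _,
      ∀ x, χ (kin d S x) = α x)
    (h2 : ∃ χ : d.ker →* Multiplicative (ZMod 2), χ ≠ 1 ∧ ∀ x, χ (kin d S x) = 1) :
    mu (res d S) < mu d := by
  obtain ⟨s, hs⟩ := Group.fg_def.1 ((Group.fg_iff_subgroup_fg _).2 hd)
  have : Finite (d.ker →* Multiplicative (ZMod 2)) :=
    .of_injective (fun χ (x : s) => χ x) fun χ χ' e =>
      MonoidHom.eq_of_eqOn_dense hs fun x hx => congrFun e ⟨x, hx⟩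
  let r : (d.ker →* Multiplicative (ZMod 2)) → ((res d S).ker →* Multiplicative (ZMod 2)) :=
    fun χ => χ.comp (kin d S)
  have hr : Function.Surjective r := fun α => (h1 α).imp fun χ h => MonoidHom.ext h
  have := Finite.of_surjective r hr
  have := Fintype.ofFinite (d.ker →* Multiplicative (ZMod 2))
  have := Fintype.ofFinite ((res d S).ker →* Multiplicative (ZMod 2))
  rw [mu, mu, Nat.card_eq_fintype_card, Nat.card_eq_fintype_card]
  obtain ⟨χ, h3, h4⟩ := h2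
  exact Fintype.card_lt_of_surjective_not_injective r hr fun e => h3 (e (MonoidHom.ext h4))

/-- the data of an invariant one-edge splitting -/
structure DT (d : Dg G) (T : GTree G) (v w : T.V) (t : G) : Prop where
  adj : T.Y.Adj v w
  free : ∀ f ∈ d.ker, ∀ a b, T.Y.Adj a b → f • a = a → f • b = b → f = 1
  orb : ∀ a b, T.Y.Adj a b → ∃ f ∈ d.ker, (f • a = v ∧ f • b = w) ∨ (f • a = w ∧ f • b = v)
  inv : ∀ g : G, g • v = w → g • w ≠ v
  deg : dg d t = 1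
  tv : t • v = v
  tw : t • w = w
  nofix : ∀ a : T.V, ∃ f ∈ d.ker, f • a ≠ a

namespace DT

variable {T : GTree G} {v w : T.V} {t : G}

lemma symm (h : DT d T v w t) : DT d T w v t where
  adj := h.adj.symm
  free := h.free
  orb a b e := (h.orb a b e).imp fun _ h => ⟨h.1, h.2.symm⟩
  inv g e e' := h.inv g e' e
  deg := h.deg
  tv := h.tw
  tw := h.tv
  nofix := h.nofix

lemma gen (h : DT d T v w t) (P : Subgroup G) (h1 : ∀ f ∈ d.ker, f • v = v → f ∈ P)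
    (h2 : ∀ f ∈ d.ker, f • w = w → f ∈ P) (h3 : ∀ f ∈ d.ker, f • v = w → f ∈ P) : d.ker ≤ P := by
  have h4 : ∀ f ∈ d.ker, ∀ a, a = v ∨ a = w → f • a = v ∨ f • a = w → f ∈ P := by
    rintro f hf _ (rfl | rfl) (e | e)
    exacts [h1 f hf e, h3 f hf e,
      inv_mem_iff.1 (h3 _ (inv_mem hf) (inv_smul_eq_iff.2 e.symm)), h2 f hf e]
  have key : ∀ x, ∃ p ∈ P, p ∈ d.ker ∧ (p • x = v ∨ p • x = w) := fun x => by
    have := (SimpleGraph.reachable_iff_reflTransGen v x).1 (T.tree.connected.preconnected v x)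
    induction this with
    | refl => exact ⟨1, one_mem _, one_mem _, Or.inl (one_smul _ _)⟩
    | @tail x y _ e ih =>
      obtain ⟨p, p1, p2, p3⟩ := ih
      obtain ⟨f, f1, f2⟩ := h.orb x y e
      have := h4 _ (mul_mem f1 (inv_mem p2)) _ p3 (by
        rw [mul_smul, inv_smul_smul]; exact f2.imp And.left And.left)
      exact ⟨f, by simpa using mul_mem this p1, f1, (f2.imp And.right And.right).symm⟩
  intro f hf
  obtain ⟨p, p1, p2, p3⟩ := key (f • v)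
  simpa using mul_mem (inv_mem p1) (h4 _ (mul_mem p2 hf) v (Or.inl rfl) (by rwa [mul_smul]))

lemma pot (h : DT d T v w t) {A : Type} [Group A] (l0 l1 : G → A) :
    ∃ Θ : T.V → A, ∀ f ∈ d.ker, Θ (f • v) * l0 f = Θ (f • w) * l1 f := by
  classical
  let c : T.V → T.V → A := fun a b =>
    if e : ∃ f ∈ d.ker, f • v = a ∧ f • w = b then l0 e.choose * (l1 e.choose)⁻¹ else 1
  obtain ⟨Θ, hΘ⟩ := exists_pot T.tree (fun a b => c a b * (c b a)⁻¹) fun a b _ => by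
    rw [mul_inv_rev, inv_inv]
  refine ⟨Θ, fun f hf => ?_⟩
  have e : ∃ f' ∈ d.ker, f' • v = f • v ∧ f' • w = f • w := ⟨f, hf, rfl, rfl⟩
  obtain ⟨e1, e2, e3⟩ := e.choose_spec
  have e4 : e.choose = f := (inv_mul_eq_one.1 (h.free _ (mul_mem (inv_mem hf) e1) v w h.adj
    (by rw [mul_smul, e2, inv_smul_smul]) (by rw [mul_smul, e3, inv_smul_smul]))).symm
  have e5 : ¬ ∃ f' ∈ d.ker, f' • v = f • w ∧ f' • w = f • v := fun ⟨f', _, e5, e6⟩ =>
    h.inv (f⁻¹ * f') (by rw [mul_smul, e5, inv_smul_smul]) (by rw [mul_smul, e6, inv_smul_smul])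
  rw [hΘ _ _ (T.adj_smul f _ _ h.adj)]
  simp only [c, dif_pos e, dif_neg e5, e4]
  group

lemma loc {A : Type} [Group A] (v : T.V) (α : (res d (stabilizer G v)).ker →* A) :
    ∃ l : G → A, ∀ f ∈ d.ker, ∀ a : (res d (stabilizer G v)).ker, l (f * a) = l f * α a := by
  classical
  have m : ∀ f ∈ d.ker, ∃ r ∈ d.ker, r • v = f • v := fun f hf => ⟨f, hf, rfl⟩
  let r : T.V → G := fun x => if e : ∃ r ∈ d.ker, r • v = x then e.choose else 1
  have r1 : ∀ f ∈ d.ker, r (f • v) ∈ d.ker ∧ r (f • v) • v = f • v := fun f hf => by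
    simp only [r, dif_pos (m f hf)]
    exact (m f hf).choose_spec
  have r2 : ∀ f ∈ d.ker, (r (f • v))⁻¹ * f ∈ stabilizer G v ∧ (r (f • v))⁻¹ * f ∈ d.ker :=
    fun f hf => ⟨by rw [mem_stabilizer_iff, mul_smul, inv_smul_eq_iff, (r1 f hf).2],
      mul_mem (inv_mem (r1 f hf).1) hf⟩
  refine ⟨fun f => if hf : f ∈ d.ker then α ⟨⟨_, (r2 f hf).1⟩, (r2 f hf).2⟩ else 1,
    fun f hf a => ?_⟩
  have ha : ((a : stabilizer G v) : G) • v = v := a.1.2
  simp only [dif_pos hf, dif_pos (mul_mem hf (kin d _ a).2 : f * a ∈ d.ker), ← map_mul]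
  congr 1
  ext
  simp [mul_smul, ha, mul_assoc]

lemma hom {A : Type} [Group A] (θ : G → A)
    (h : ∀ P : Subgroup G, (∀ y ∈ d.ker, (∃ c, ∀ f ∈ d.ker, θ (f * y) = θ f * c) → y ∈ P) →
      d.ker ≤ P) :
    ∃ χ : d.ker →* A, ∀ (y : d.ker) c, (∀ f ∈ d.ker, θ (f * y) = θ f * c) → χ y = c := by
  let P : Subgroup G :=
    { carrier := {y | y ∈ d.ker ∧ ∃ c, ∀ f ∈ d.ker, θ (f * y) = θ f * c}
      mul_mem' := fun ⟨h1, c, h2⟩ ⟨h3, c', h4⟩ => ⟨mul_mem h1 h3, c * c', fun f hf => by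
        rw [← mul_assoc, h4 _ (mul_mem hf h1), h2 f hf, mul_assoc]⟩
      one_mem' := ⟨one_mem _, 1, fun f _ => by rw [mul_one, mul_one]⟩
      inv_mem' := fun ⟨h1, c, h2⟩ => ⟨inv_mem h1, c⁻¹, fun f hf => by
        rw [eq_mul_inv_iff_mul_eq, ← h2 _ (mul_mem hf (inv_mem h1)), inv_mul_cancel_right]⟩ }
  have key : ∀ (y : d.ker) c, (∀ f ∈ d.ker, θ (f * y) = θ f * c) → (θ 1)⁻¹ * θ y = c :=
    fun y c e => by rw [inv_mul_eq_iff_eq_mul, ← e 1 (one_mem _), one_mul]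
  refine ⟨MonoidHom.mk' (fun y => (θ 1)⁻¹ * θ y) fun x y => ?_, key⟩
  obtain ⟨-, c, hc⟩ := h P (fun y h1 h2 => ⟨h1, h2⟩) y.2
  rw [key y c hc, coe_mul, hc x x.2, mul_assoc]

lemma ext_seg (h : DT d T v w t) (hs : ∀ f ∈ d.ker, f • v ≠ w) {A : Type} [Group A]
    (α : (res d (stabilizer G v)).ker →* A) (β : (res d (stabilizer G w)).ker →* A) :
    ∃ χ : d.ker →* A, (∀ x, χ (kin d _ x) = α x) ∧ ∀ x, χ (kin d _ x) = β x := by
  obtain ⟨l0, h0⟩ := loc v α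
  obtain ⟨l1, h1⟩ := loc w β
  obtain ⟨Θ, h2⟩ := h.pot l0 l1
  have e0 : ∀ a : (res d (stabilizer G v)).ker, ∀ f ∈ d.ker,
      Θ ((f * a) • v) * l0 (f * a) = Θ (f • v) * l0 f * α a := fun a f hf => by
    rw [h0 f hf, mul_smul, show ((a : stabilizer G v) : G) • v = v from a.1.2, mul_assoc]
  have e1 : ∀ a : (res d (stabilizer G w)).ker, ∀ f ∈ d.ker,
      Θ ((f * a) • v) * l0 (f * a) = Θ (f • v) * l0 f * β a := fun a f hf => by
    rw [h2 _ (mul_mem hf (kin d _ a).2 : f * a ∈ d.ker), h2 f hf, h1 f hf, mul_smul,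
      show ((a : stabilizer G w) : G) • w = w from a.1.2, mul_assoc]
  obtain ⟨χ, h3⟩ := hom (fun f => Θ (f • v) * l0 f) fun P hP => h.gen P
    (fun f hf e => hP f hf ⟨_, e0 ⟨⟨f, e⟩, hf⟩⟩) (fun f hf e => hP f hf ⟨_, e1 ⟨⟨f, e⟩, hf⟩⟩)
    fun f hf e => (hs f hf e).elim
  exact ⟨χ, fun x => h3 _ _ (e0 x), fun x => h3 _ _ (e1 x)⟩

lemma gen_loop (h : DT d T v w t) {s : G} (hs : s ∈ d.ker) (e : s • v = w) (P : Subgroup G)
    (h1 : ∀ f ∈ d.ker, f • v = v → f ∈ P) (h2 : s ∈ P) : d.ker ≤ P := by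
  refine h.gen P h1 (fun f hf e' => ?_) fun f hf e' => ?_
  · have := h1 _ (mul_mem (mul_mem (inv_mem hs) hf) hs) (by
      rw [mul_smul, e, mul_smul, e', ← e, inv_smul_smul])
    simpa [mul_assoc] using mul_mem (mul_mem h2 this) (inv_mem h2)
  · simpa using mul_mem h2 (h1 _ (mul_mem (inv_mem hs) hf) (by
      rw [mul_smul, e', ← e, inv_smul_smul]))

lemma ext_loop (h : DT d T v w t) {s : G} (hs : s ∈ d.ker) (e : s • v = w) {A : Type} [Group A]
    (α : (res d (stabilizer G v)).ker →* A) (σ : A) :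
    ∃ χ : d.ker →* A, (∀ x, χ (kin d _ x) = α x) ∧ χ ⟨s, hs⟩ = σ := by
  obtain ⟨l0, h0⟩ := loc v α
  obtain ⟨Θ, h2⟩ := h.pot l0 fun f => l0 (f * s) * σ⁻¹
  have e0 : ∀ a : (res d (stabilizer G v)).ker, ∀ f ∈ d.ker,
      Θ ((f * a) • v) * l0 (f * a) = Θ (f • v) * l0 f * α a := fun a f hf => by
    rw [h0 f hf, mul_smul, show ((a : stabilizer G v) : G) • v = v from a.1.2, mul_assoc]
  have e1 : ∀ f ∈ d.ker, Θ ((f * s) • v) * l0 (f * s) = Θ (f • v) * l0 f * σ := fun f hf => by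
    rw [h2 f hf, mul_smul, e, mul_assoc, inv_mul_cancel_right]
  obtain ⟨χ, h3⟩ := hom (fun f => Θ (f • v) * l0 f) fun P hP => h.gen_loop hs e P
    (fun f hf e => hP f hf ⟨_, e0 ⟨⟨f, e⟩, hf⟩⟩) (hP s hs ⟨_, e1⟩)
  exact ⟨χ, fun x => h3 _ _ (e0 x), h3 _ _ e1⟩

lemma nontriv (h : DT d T v w t) (hs : ∀ f ∈ d.ker, f • v ≠ w) :
    ∃ b ∈ d.ker, b ≠ 1 ∧ b • w = w := by
  by_contra e
  obtain ⟨f, hf, h1⟩ := h.nofix v
  refine h1 (h.gen (stabilizer G v) (fun _ _ e => e) (fun f hf e' => ?_)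
    (fun f hf e' => (hs f hf e').elim) hf)
  rw [show f = 1 from by_contra fun e'' => e ⟨f, hf, e'', e'⟩]
  exact one_mem _

/-- The vertex group is again free-by-cyclic, with a smaller fibre. -/
lemma vertex (hd : FC d) (h : DT d T v w t) :
    FC (res d (stabilizer G v)) ∧ mu (res d (stabilizer G v)) < mu d := by
  by_cases hs : ∃ s ∈ d.ker, s • v = w
  · obtain ⟨s, hs, e⟩ := hs
    obtain ⟨χ, h1, -⟩ := h.ext_loop hs e (MonoidHom.id _) 1
    refine ⟨fc_res hd h.tv h.deg χ h1,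
      mu_lt hd.fg (fun α => (h.ext_loop hs e α 1).imp fun _ h => h.1) ?_⟩
    obtain ⟨χ, h2, h3⟩ := h.ext_loop hs e (1 : _ →* Multiplicative (ZMod 2)) (.ofAdd 1)
    exact ⟨χ, fun e => by rw [e, MonoidHom.one_apply] at h3; exact absurd h3 (by decide), h2⟩
  · push Not at hs
    obtain ⟨χ, h1, -⟩ := h.ext_seg hs (MonoidHom.id _) 1
    refine ⟨fc_res hd h.tv h.deg χ h1,
      mu_lt hd.fg (fun α => (h.ext_seg hs α 1).imp fun _ h => h.1) ?_⟩
    obtain ⟨χ', -, h2⟩ := h.ext_seg hs 1 (MonoidHom.id _)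
    have := (fc_res hd h.tw h.deg χ' h2).free
    obtain ⟨b, b1, b2, b3⟩ := h.nontriv hs
    obtain ⟨β, x, h3⟩ := exists_hom (A := (res d (stabilizer G w)).ker)
      ⟨⟨⟨b, b3⟩, b1⟩, fun e => b2 (congrArg (fun x => x.1.1) e)⟩
      (Multiplicative.ofAdd (1 : ZMod 2))
    obtain ⟨χ, h4, h5⟩ := h.ext_seg hs 1 β
    have h6 := (h5 x).trans h3
    exact ⟨χ, fun e => by rw [e, MonoidHom.one_apply] at h6; exact absurd h6 (by decide), h4⟩

lemma sun' (hd : FC d) (h : DT d T v w t) {w' : T.V} {g a : G} {L : Subgroup (stabilizer G v)}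
    (hL : L.FiniteIndex) (η : Dg L) (x y : L) (h1 : T.Y.Adj v w') (h2 : g • w' = w)
    (h3 : g • v ≠ v) (a1 : a ∈ d.ker) (a2 : a ≠ 1) (a3 : a • v = v) (h4 : 0 < dg d x)
    (h5 : dg d x = dg d y) (h6 : ((x : stabilizer G v) : G) • w = w)
    (h7 : ((y : stabilizer G v) : G) • w' = w') : η x = η y := by
  by_contra e
  have := hd.free
  have := tf (A := d.ker)
  obtain ⟨η', h8⟩ := exists_map (stabilizer G v).subtype Subtype.val_injective L η
  refine sun hd.lerf T η' ⟨_, mem_map_of_mem _ x.2⟩ ⟨_, mem_map_of_mem _ y.2⟩ h.adj h1 h2 h3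
    (fg_res (h.vertex hd).1.fg) (fg_res (h.symm.vertex hd).1.fg) ⟨a, a1, a3, fun n hn e => a2 ?_⟩
    (map_subtype_le L) ?_ h4 h5 h6 h7 (by rwa [h8, h8]) fun z z1 z2 => ?_
  · have := h.free _ (pow_mem a1 n) v w' h1 (pow_mem (S := stabilizer G v) a3 n) e
    exact congrArg Subtype.val
      ((pow_eq_one_iff_left (a := (⟨a, a1⟩ : d.ker)) hn.ne').1 (Subtype.ext this))
  · rw [relIndex, subgroupOf, comap_map_eq_self_of_injective Subtype.val_injective]
    exact hL.1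
  · have z3 : (z : G) • v = v := map_subtype_le L z.2
    rw [show z = 1 from Subtype.ext (z2.elim (h.free _ z1 v w h.adj z3) (h.free _ z1 v w' h1 z3)),
      map_one]

lemma central (hd : FC d) (h : DT d T v w t) (hb : (∃ a ∈ d.ker, a ≠ 1 ∧ a • v = v) →
      ∃ b ∈ d.ker, b ≠ 1 ∧ b • w = w)
    (ih : Per (res d (stabilizer G v)) ∨ VHT (res d (stabilizer G v)) ∅ ⟨t, h.tv⟩) :
    ∃ k : ℕ, 0 < k ∧ ∀ x ∈ d.ker, x • v = v → t ^ k * x = x * t ^ k := by
  by_cases ha : ∃ a ∈ d.ker, a ≠ 1 ∧ a • v = v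
  · obtain ⟨b, b1, b2, b3⟩ := hb ha
    obtain ⟨a, a1, a2, a3⟩ := ha
    have hv : ¬ VHT (res d (stabilizer G v)) ∅ ⟨t, h.tv⟩ := by
      rintro ⟨L, hL, η, c, N, x, y, -, hN, hx, hy, h1, -⟩
      have c1 : (c : G) • v = v := c.2
      have t1 : t ^ N • w = w := pow_mem (S := stabilizer G w) h.tw N
      refine h1 (h.sun' hd (w' := (c : G) • w) (g := b * (c : G)⁻¹) hL η x y ?_ ?_ ?_ a1 a2 a3
        ?_ ?_ ?_ ?_)
      · have := T.adj_smul c _ _ h.adj
        rwa [c1] at this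
      · rw [mul_smul, inv_smul_smul, b3]
      · rw [mul_smul, inv_smul_eq_iff.2 c1.symm]
        exact fun e => b2 (h.free b b1 v w h.adj e b3)
      · rw [hx, coe_pow, dg_pow, h.deg]; simpa using hN
      · rw [hx, hy, coe_mul, coe_mul, dg_mul, dg_mul, coe_inv, dg_inv]; ring
      · rw [hx]; exact t1
      · rw [hy, coe_mul, coe_mul, coe_inv, mul_smul, inv_smul_smul, mul_smul]
        exact congrArg _ t1
    obtain ⟨k, h1, h2⟩ := per_vht (h.vertex hd).1 (ih.resolve_right hv) hv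
    exact ⟨k, h1, fun x hx e => congrArg Subtype.val (h2 ⟨x, e⟩ hx)⟩
  · exact ⟨1, one_pos, fun x hx e => by
      rw [show x = 1 from by_contra fun e' => ha ⟨x, hx, e', e⟩, mul_one, one_mul]⟩

end DT

/-- Case D. -/
theorem caseD (hd : FC d) (h : DTree d) (ih : ∀ (G' : Type) [Group G'] (d' : Dg G'), FC d' →
    mu d' < mu d → Per d' ∨ ∀ t, 0 < dg d' t → VHT d' ∅ t) : Per d := by
  obtain ⟨T, v, w, h1, h2, h3, h4, ⟨t, h5, h6, h7⟩, h8⟩ := h
  have h : DT d T v w t := ⟨h1, h2, h3, h4, h5, h6, h7, h8⟩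
  have i1 := (ih _ _ (h.vertex hd).1 (h.vertex hd).2).imp_right fun e =>
    e ⟨t, h6⟩ (h5.symm ▸ one_pos : 0 < dg d t)
  have i2 := (ih _ _ (h.symm.vertex hd).1 (h.symm.vertex hd).2).imp_right fun e =>
    e ⟨t, h7⟩ (h5.symm ▸ one_pos : 0 < dg d t)
  have fin : ∀ k : ℕ, 0 < k → d.ker ≤ centralizer {t ^ k} → Per d := fun k hk e =>
    ⟨t ^ k, by rw [dg_pow, h5]; simpa using hk.ne', fun x hx =>
      (mem_centralizer_singleton_iff.1 (e hx)).symm⟩
  by_cases hs : ∃ s ∈ d.ker, s • v = w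
  · obtain ⟨s, hs, e⟩ := hs
    obtain ⟨k, k1, k2⟩ := h.central hd (fun ⟨a, a1, a2, a3⟩ => ⟨s * a * s⁻¹,
      mul_mem (mul_mem hs a1) (inv_mem hs), by simpa using a2,
      by rw [← e, mul_smul, inv_smul_smul, mul_smul, a3]⟩) i1
    refine fin k k1 (h.gen_loop hs e _
      (fun f hf e => mem_centralizer_singleton_iff.2 (k2 f hf e).symm) ?_)
    have t1 : t ^ k • v = v := pow_mem (S := stabilizer G v) h6 k
    have t2 : t ^ k • w = w := pow_mem (S := stabilizer G w) h7 k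
    have u1 : s⁻¹ * t ^ k * s * (t ^ k)⁻¹ ∈ d.ker :=
      (mem_ker_iff _ _).2 (by simp only [dg_mul, dg_inv]; ring)
    have u2 : (s⁻¹ * t ^ k * s * (t ^ k)⁻¹) • v = v := by
      rw [mul_smul, inv_smul_eq_iff.2 t1.symm, mul_smul, e, mul_smul, t2, ← e, inv_smul_smul]
    by_contra e'
    have u3 : s⁻¹ * t ^ k * s * (t ^ k)⁻¹ ≠ 1 := fun e'' => e' (mem_centralizer_singleton_iff.2 (by
      rw [mul_inv_eq_one, mul_assoc, inv_mul_eq_iff_eq_mul] at e''
      exact e''.symm))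
    have hv := (h.vertex hd).1
    have := hv.free
    let u : (res d (stabilizer G v)).ker := ⟨⟨_, u2⟩, u1⟩
    obtain ⟨χ, x, c1⟩ := exists_hom (A := zpowers u)
      ⟨⟨u, mem_zpowers u⟩, fun e => u3 (congrArg (fun x => x.1.1.1) e)⟩
      (Multiplicative.ofAdd (1 : ℤ))
    obtain ⟨L, η, x', y', l1, l2, l3, l4, l5⟩ := virt hv (z := ⟨t ^ k, t1⟩)
      (by change dg d (t ^ k) ≠ 0; rw [dg_pow, h5]; simpa using k1.ne')
      (fun x hx => Subtype.ext (k2 x hx x.2)) (fg_zpowers u) χ 1 ⟨u, mem_zpowers u⟩ 1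
    have l6 : ((x' : stabilizer G v) : G) = t ^ k := by simp [l2]
    have l7 : ((y' : stabilizer G v) : G) = s⁻¹ * t ^ k * s := by simp [l3, u]
    have l8 := h.sun' hd (w' := s⁻¹ • v) (g := s * s) l1 η x' y'
      (by simpa [← e] using (T.adj_smul s⁻¹ _ _ h1).symm) (by rw [mul_smul, smul_inv_smul, e])
      (by rw [mul_smul, e]; exact h4 s e) u1 u3 u2
      (by rw [l6, dg_pow, h5]; simpa using k1) (by rw [l6, l7, dg_mul, dg_mul, dg_inv]; ring)
      (by rw [l6, t2]) (by rw [l7, mul_smul, smul_inv_smul, mul_smul, t1])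
    obtain ⟨m, hm⟩ := x.2
    rw [l4, l5, map_one] at l8
    rw [show x = ⟨u, mem_zpowers u⟩ ^ m from Subtype.ext hm.symm, map_zpow, ← l8, one_zpow] at c1
    exact absurd c1 (by decide)
  · push Not at hs
    have hs' : ∀ f ∈ d.ker, f • w ≠ v := fun f hf e =>
      hs _ (inv_mem hf) (inv_smul_eq_iff.2 e.symm)
    obtain ⟨k, k1, k2⟩ := h.central hd (fun _ => h.nontriv hs) i1
    obtain ⟨l, l1, l2⟩ := h.symm.central hd (fun _ => h.symm.nontriv hs') i2
    refine fin (k * l) (Nat.mul_pos k1 l1) (h.gen _ (fun f hf e => ?_) (fun f hf e => ?_)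
      fun f hf e => (hs f hf e).elim) <;> rw [mem_centralizer_singleton_iff]
    · rw [pow_mul]; exact (Commute.pow_left (k2 f hf e) l).symm
    · rw [pow_mul']; exact (Commute.pow_left (l2 f hf e) k).symm

end Pool.Agent.Lib.FBC.X2
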